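import Pool.Agent.Q240.CG.StmP

/-!
# CG-RawMul: the product of two L-functions
-/

set_option autoImplicit false
set_option linter.all false

open Complex Filter Topology
open scoped ComplexConjugate

namespace Pool.Agent.Q177.CG

open Pool.Agent.TH839.NA (RawTL RawT)
open Pool.Agent.W355.UN (Conv)

/-- arithmetic functions -/
noncomputable def AF (g : ℕ → ℂ) : ArithmeticFunction ℂ := ⟨fun n => if n = 0 then 0 else g n, if_pos rfl⟩

theorem AF_apply {g : ℕ → ℂ} {n : ℕ} (hn : n ≠ 0) : AF g n = g n := if_neg hn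

theorem AF_mul (g h : ℕ → ℂ) (n : ℕ) :
    (AF g * AF h) n = ∑ p ∈ n.divisorsAntidiagonal, g p.1 * h p.2 := by
  rw [ArithmeticFunction.mul_apply]
  refine Finset.sum_congr rfl fun p hp => ?_
  have h0 := Nat.ne_zero_of_mem_divisorsAntidiagonal hp
  rw [AF_apply h0.1, AF_apply h0.2]

theorem AF_conv (g h : ℕ → ℂ) : AF (LSeries.convolution g h) = AF g * AF h := by
  ext n
  by_cases hn : n = 0
  · rw [hn, ArithmeticFunction.map_zero, ArithmeticFunction.map_zero]
  · rw [AF_apply hn, AF_mul, LSeries.convolution_def]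

theorem AF_add (g h : ℕ → ℂ) : AF (fun n => g n + h n) = AF g + AF h := by
  ext n
  by_cases hn : n = 0
  · rw [hn, ArithmeticFunction.map_zero, ArithmeticFunction.map_zero]
  · rw [ArithmeticFunction.add_apply, AF_apply hn, AF_apply hn, AF_apply hn]

/-- the derivation -/
noncomputable def DL (g : ℕ → ℂ) : ℕ → ℂ := fun n => g n * ((Real.log n : ℝ) : ℂ)

/-- the trace part -/
noncomputable def TL (c : ℕ → ℂ) : ℕ → ℂ := fun n =>
  ((ArithmeticFunction.vonMangoldt n : ℝ) : ℂ) * c n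

theorem conv_iff (b c : ℕ → ℂ) : Conv b c ↔ AF (DL b) = AF (TL c) * AF b := by
  have h1 : ∀ n : ℕ, (AF (TL c) * AF b) n =
      ∑ d ∈ n.divisors, ((ArithmeticFunction.vonMangoldt d : ℝ) : ℂ) * c d * b (n / d) := by
    intro n
    rw [AF_mul]
    exact Nat.sum_divisorsAntidiagonal (f := fun d e => TL c d * b e)
  constructor
  · intro h
    ext n
    by_cases hn : n = 0
    · rw [hn, ArithmeticFunction.map_zero, ArithmeticFunction.map_zero]
    · rw [AF_apply hn, h1]
      exact h n hn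
  · intro h n hn
    have h2 : (AF (DL b)) n = (AF (TL c) * AF b) n := by rw [h]
    rw [AF_apply hn, h1] at h2
    exact h2

theorem DL_mul (g h : ℕ → ℂ) :
    AF (DL (LSeries.convolution g h)) = AF (DL g) * AF h + AF g * AF (DL h) := by
  ext n
  by_cases hn : n = 0
  · rw [hn, ArithmeticFunction.map_zero, ArithmeticFunction.map_zero]
  · rw [ArithmeticFunction.add_apply, AF_apply hn, AF_mul, AF_mul, ← Finset.sum_add_distrib]
    unfold DL
    rw [LSeries.convolution_def, Finset.sum_mul]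
    refine Finset.sum_congr rfl fun p hp => ?_
    have h0 := Nat.ne_zero_of_mem_divisorsAntidiagonal hp
    have h2 := (Nat.mem_divisorsAntidiagonal.1 hp).1
    have h3 : Real.log (n : ℝ) = Real.log (p.1 : ℝ) + Real.log (p.2 : ℝ) := by
      rw [← h2, Nat.cast_mul, Real.log_mul (by exact_mod_cast h0.1) (by exact_mod_cast h0.2)]
    rw [h3]
    push_cast
    ring

theorem conv_mul {b1 c1 b2 c2 : ℕ → ℂ} (h1 : Conv b1 c1) (h2 : Conv b2 c2) :
    Conv (LSeries.convolution b1 b2) (fun n => c1 n + c2 n) := by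
  rw [conv_iff] at h1 h2 ⊢
  have h3 : AF (TL fun n => c1 n + c2 n) = AF (TL c1) + AF (TL c2) := by
    rw [← AF_add]
    congr 1
    funext n
    unfold TL
    ring
  rw [DL_mul, h1, h2, h3, AF_conv]
  ring

theorem prod_get (l : List ℂ) (f : ℂ → ℂ) : ∏ j : Fin l.length, f (l.get j) = (l.map f).prod := by
  rw [← List.prod_ofFn]
  congr 1
  rw [← Function.comp_def, ← List.map_ofFn, List.ofFn_get]

theorem rawMul : Pool.Agent.Q240.CG.S_RawMul := by
  intro θ l1 l2 r1 r2 N1 N2 b1 c1 X1 b2 c2 X2 h1 h2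
  have hN1 := h1.hN
  have hN2 := h2.hN
  have hre : ∀ x ∈ l1 ++ l2, -1 / 2 ≤ x.re := by
    intro x hx
    rcases List.mem_append.1 hx with h | h
    · obtain ⟨j, rfl⟩ := List.mem_iff_get.1 h
      exact h1.re_ge j
    · obtain ⟨j, rfl⟩ := List.mem_iff_get.1 h
      exact h2.re_ge j
  refine ⟨?_, ?_, ?_, h1.hθ, h1.hθ1, fun j => hre _ (List.get_mem _ _), h1.entire.mul h2.entire,
    ?_, ?_, ?_, ?_, conv_mul h1.conv h2.conv, ?_⟩
  · rw [List.length_append]
    have := h1.hm
    omega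
  · rw [List.length_append]
    exact add_le_add h1.hr h2.hr
  · nlinarith
  · obtain ⟨A, ρ, hA⟩ := h1.order
    obtain ⟨A', ρ', hA'⟩ := h2.order
    refine ⟨|A| + |A'|, max ρ ρ', fun s => ?_⟩
    have hx : 1 ≤ 1 + ‖s‖ := by linarith [norm_nonneg s]
    have key : ∀ (B τ : ℝ), τ ≤ max ρ ρ' → B * (1 + ‖s‖) ^ τ ≤ |B| * (1 + ‖s‖) ^ (max ρ ρ') := by
      intro B τ hτ
      have e1 : 0 ≤ (1 + ‖s‖) ^ τ := Real.rpow_nonneg (by linarith) _
      calc B * (1 + ‖s‖) ^ τ ≤ |B| * (1 + ‖s‖) ^ τ := mul_le_mul_of_nonneg_right (le_abs_self B) e1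
        _ ≤ _ := mul_le_mul_of_nonneg_left (Real.rpow_le_rpow_of_exponent_le hx hτ) (abs_nonneg B)
    rw [norm_mul, add_mul, Real.exp_add]
    refine mul_le_mul ((hA s).trans (Real.exp_le_exp.2 (key A ρ (le_max_left _ _))))
      ((hA' s).trans (Real.exp_le_exp.2 (key A' ρ' (le_max_right _ _)))) (norm_nonneg _)
      (Real.exp_pos _).le
  · obtain ⟨ε, hε, hfe⟩ := h1.fe
    obtain ⟨ε', hε', hfe'⟩ := h2.fe
    refine ⟨ε * ε', by rw [norm_mul, hε, hε', one_mul], fun s => ?_⟩
    rw [map_mul, hfe s, hfe' s]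
    ring
  · rw [LSeries.convolution_def]
    show ∑ p ∈ Nat.divisorsAntidiagonal 1, b1 p.1 * b2 p.2 = 1
    rw [Nat.divisorsAntidiagonal_one, Finset.sum_singleton, h1.one, h2.one, one_mul]
  · intro n
    have e1 := h1.cb n
    have e2 := h2.cb n
    rw [List.length_append]
    push_cast
    refine (norm_add_le _ _).trans ?_
    linarith
  · obtain ⟨σ1, hσ1⟩ := h1.eq
    obtain ⟨σ2, hσ2⟩ := h2.eq
    refine ⟨max (max σ1 σ2) (2 + θ), fun s hs => ?_⟩
    have s1 : σ1 ≤ s.re := (le_max_left _ _).trans ((le_max_left _ _).trans hs)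
    have s2 : σ2 ≤ s.re := (le_max_right _ _).trans ((le_max_left _ _).trans hs)
    have s3 : 2 + θ ≤ s.re := (le_max_right _ _).trans hs
    have e1 := (RawT.coef h1 (s := s) (by linarith)).1
    have e2 := (RawT.coef h2 (s := s) (by linarith)).1
    have e3 : LSeries (LSeries.convolution b1 b2) s = LSeries b1 s * LSeries b2 s :=
      LSeries_convolution' e1 e2
    have e4 : ((N1 * N2 : ℝ) : ℂ) ^ (s / 2) = (N1 : ℂ) ^ (s / 2) * (N2 : ℂ) ^ (s / 2) := by
      rw [Complex.ofReal_mul, Complex.mul_cpow_ofReal_nonneg (by linarith) (by linarith)]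
    have e5 : ∏ j : Fin (l1 ++ l2).length, Gammaℝ (s + (l1 ++ l2).get j) =
        (∏ j, Gammaℝ (s + l1.get j)) * ∏ j, Gammaℝ (s + l2.get j) := by
      rw [prod_get (l1 ++ l2) (fun x => Gammaℝ (s + x)), prod_get l1 (fun x => Gammaℝ (s + x)),
        prod_get l2 (fun x => Gammaℝ (s + x)), List.map_append, List.prod_append]
    show X1 s * X2 s = _
    rw [hσ1 s s1, hσ2 s s2, e3, e4, e5, pow_add]
    ring

end Pool.Agent.Q177.CG
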