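import Pool.Agent.Q177.CG.Q12b

/-!
# Normal subgroups of `QG`, part 3
-/

namespace Pool.Agent.Q177.CG

open Pool.Agent.Q22.CG Matrix

section

variable {ι : Type} [Fintype ι] [DecidableEq ι] {F : Type} [Field F]

/-- the row vector supported on the last two columns -/
def emb (v : Fin 2 → F) : ι ⊕ Fin 2 → F := Sum.elim 0 v

theorem emb_inl (v : Fin 2 → F) (u : ι) : emb v (Sum.inl u : ι ⊕ Fin 2) = 0 := rfl

/-- the last part of the row `u` -/
def rw2 (g : Matrix (ι ⊕ Fin 2) (ι ⊕ Fin 2) F) (u : ι) : Fin 2 → F :=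
  fun c => g (Sum.inl u) (Sum.inr c)

/-- `[1 + e_{x u}, g]` for `g` in `V` -/
theorem comm5 {g : (Matrix (ι ⊕ Fin 2) (ι ⊕ Fin 2) F)ˣ} (hg : g ∈ QG ι F)
    (h1 : ∀ u u' : ι, g.val (Sum.inl u) (Sum.inl u') = if u = u' then 1 else 0) (x u : ι)
    (h0 : (Pi.single (Sum.inl u) 1 : ι ⊕ Fin 2 → F) (Sum.inl x) = 0) :
    tv x (Pi.single (Sum.inl u) 1) h0 * g * (tv x (Pi.single (Sum.inl u) 1) h0)⁻¹ * g⁻¹ =
      tv x (emb (rw2 g.val u)) (emb_inl _ _) := by
  set N : Matrix (ι ⊕ Fin 2) (ι ⊕ Fin 2) F := g.val - 1 with hN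
  have hg1 : g.val = 1 + N := by rw [hN]; abel
  have hNinl : ∀ j u, N j (Sum.inl u) = 0 := by
    intro j u
    rw [hN, Matrix.sub_apply]
    rcases j with j | j
    · rw [h1, Matrix.one_apply]
      simp
    · rw [QG_bot hg, sub_self]
  have hNinr : ∀ c j, N (Sum.inr c) j = 0 := by
    intro c j
    rw [hN, Matrix.sub_apply, QG_bot hg, sub_self]
  have e1 : N *ᵥ ee x = 0 := by
    funext j
    rw [mulVec_ee, hNinl]
    rfl
  have e2 : (Pi.single (Sum.inl u) 1 : ι ⊕ Fin 2 → F) ᵥ* N = emb (rw2 g.val u) := by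
    rw [single_one_vecMul]
    funext j
    rcases j with j | j
    · exact hNinl _ _
    · show N (Sum.inl u) (Sum.inr j) = g.val (Sum.inl u) (Sum.inr j)
      rw [hN, Matrix.sub_apply, Matrix.one_apply_ne (by simp), sub_zero]
  have e3 : (emb (rw2 g.val u) : ι ⊕ Fin 2 → F) ᵥ* N = 0 := by
    funext j
    rw [vecMul, dotProduct]
    refine Finset.sum_eq_zero fun k _ => ?_
    rcases k with k | k
    · rw [emb_inl, zero_mul]
    · rw [hNinr, mul_zero]
  have e4 : (emb (rw2 g.val u) : ι ⊕ Fin 2 → F) ⬝ᵥ ee x = 0 := by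
    rw [dot_ee, emb_inl]
  have key : tv x (Pi.single (Sum.inl u) 1) h0 * g =
      tv x (emb (rw2 g.val u)) (emb_inl _ _) * g * tv x (Pi.single (Sum.inl u) 1) h0 := by
    generalize hv2 : (rw2 g.val u) = v2 at e2 e3 e4
    apply Units.ext
    rw [Units.val_mul, Units.val_mul, Units.val_mul, tv_val, tv_val, hg1]
    have h5 : (1 + N) * (1 + vecMulVec (ee x) (Pi.single (Sum.inl u) 1 : ι ⊕ Fin 2 → F)) =
        1 + N + vecMulVec (ee x) (Pi.single (Sum.inl u) 1) := by
      rw [mul_add, mul_one, add_mul (1 : Matrix (ι ⊕ Fin 2) (ι ⊕ Fin 2) F), one_mul,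
        mul_vecMulVec, e1, zero_vecMulVec, add_zero]
    rw [mul_assoc, h5]
    rw [add_mul, one_mul, mul_add (vecMulVec _ _) 1 N, mul_one, vecMulVec_mul, e2]
    rw [add_mul, one_mul, mul_add (vecMulVec (ee x) (emb v2)),
      mul_add (vecMulVec (ee x) (emb v2)), mul_one, vecMulVec_mul, e3, rk_mul, e4,
      zero_smul, vecMulVec_zero]
    abel
  rw [key]
  group

variable {L : Subgroup (Matrix (ι ⊕ Fin 2) (ι ⊕ Fin 2) F)ˣ}

theorem move (hn : ∀ q ∈ QG ι F, ∀ g ∈ L, q * g * q⁻¹ ∈ L) (v : Fin 2 → F) {x x' : ι}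
    (h : tv x (emb v) (emb_inl v x) ∈ L) : tv x' (emb v) (emb_inl v x') ∈ L := by
  by_cases hx : x' = x
  · subst hx; exact h
  · have h0 : (Pi.single (Sum.inl x) 1 : ι ⊕ Fin 2 → F) (Sum.inl x') = 0 := by
      simp [hx]
    have h1 := cm_r hn h (tv_mem x' (Pi.single (Sum.inl x) 1 : ι ⊕ Fin 2 → F) h0)
    rw [comm3 x' x _ _ _ _ (emb_inl v x')] at h1
    rwa [tv_congr x' _ (by rw [Pi.single_eq_same, one_smul])] at h1

theorem emb_add (v w : Fin 2 → F) : (emb (v + w) : ι ⊕ Fin 2 → F) = emb v + emb w := by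
  funext j
  rcases j with j | j
  · simp [emb]
  · rfl

theorem emb_neg (v : Fin 2 → F) : (emb (-v) : ι ⊕ Fin 2 → F) = -emb v := by
  funext j
  rcases j with j | j
  · simp [emb]
  · rfl

theorem emb_zero : (emb (0 : Fin 2 → F) : ι ⊕ Fin 2 → F) = 0 := by
  funext j
  rcases j with j | j <;> rfl

/-- the additive group of the rows -/
def rows (L : Subgroup (Matrix (ι ⊕ Fin 2) (ι ⊕ Fin 2) F)ˣ) (u : ι) : AddSubgroup (Fin 2 → F) where
  carrier := {v | tv u (emb v) (emb_inl v u) ∈ L}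
  zero_mem' := by
    show tv u (emb 0) _ ∈ L
    rw [tv_congr u _ emb_zero]
    rw [tv_zero]
    exact one_mem _
  add_mem' := by
    intro v w hv hw
    show tv u (emb (v + w)) _ ∈ L
    rw [tv_congr u _ (emb_add v w), ← tv_mul u _ _ (emb_inl v u) (emb_inl w u)]
    exact mul_mem hv hw
  neg_mem' := by
    intro v hv
    show tv u (emb (-v)) _ ∈ L
    rw [tv_congr u _ (emb_neg v), ← tv_inv u _ (emb_inl v u)]
    exact inv_mem hv

theorem mem_rows {u : ι} {v : Fin 2 → F} : v ∈ rows L u ↔ tv u (emb v) (emb_inl v u) ∈ L := Iff.rfl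

/-- products of row elements -/
theorem prod_rows (hn : ∀ q ∈ QG ι F, ∀ g ∈ L, q * g * q⁻¹ ∈ L) (u : ι) (v : ι → Fin 2 → F)
    (hv : ∀ x, v x ∈ rows L u) (s : Finset ι) :
    ∃ h ∈ L, h.val = 1 + ∑ x ∈ s, vecMulVec (ee x) (emb (v x)) := by
  induction s using Finset.induction_on with
  | empty => exact ⟨1, one_mem _, by simp⟩
  | insert a s ha ih =>
    obtain ⟨h, hL, hh⟩ := ih
    refine ⟨tv a (emb (v a)) (emb_inl _ _) * h, mul_mem (move hn (v a) (mem_rows.1 (hv a))) hL, ?_⟩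
    rw [Units.val_mul, hh, tv_val, Finset.sum_insert ha, add_mul, one_mul, mul_add, mul_one,
      Finset.mul_sum]
    have h1 : ∀ x ∈ s, vecMulVec (ee a) (emb (v a)) * vecMulVec (ee x) (emb (v x)) =
        (0 : Matrix (ι ⊕ Fin 2) (ι ⊕ Fin 2) F) := by
      intro x _
      rw [rk_mul, dot_ee, emb_inl, zero_smul]
    rw [Finset.sum_eq_zero h1, add_zero]
    abel

theorem form_of {g : (Matrix (ι ⊕ Fin 2) (ι ⊕ Fin 2) F)ˣ} (hg : g ∈ QG ι F)
    (h1 : ∀ u u' : ι, g.val (Sum.inl u) (Sum.inl u') = if u = u' then 1 else 0) :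
    g.val = 1 + ∑ x : ι, vecMulVec (ee x) (emb (rw2 g.val x)) := by
  ext i j
  rw [Matrix.add_apply, Matrix.sum_apply]
  simp only [vecMulVec_apply, ee_apply]
  rcases i with i | i
  · rw [Finset.sum_eq_single i]
    · rcases j with j | j
      · rw [h1, emb_inl, mul_zero, add_zero, Matrix.one_apply]
        simp
      · rw [if_pos rfl, one_mul, Matrix.one_apply_ne (by simp), zero_add]
        rfl
    · intro b _ hb
      rw [if_neg (by simpa using Ne.symm hb), zero_mul]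
    · intro h; exact absurd (Finset.mem_univ _) h
  · rw [Finset.sum_eq_zero, add_zero, QG_bot hg]
    intro x _
    rw [if_neg (by simp), zero_mul]

end

theorem fermat_hyp {ι : Type} [Fintype ι] {p : ℕ} [Fact p.Prime] (hc : 3 ≤ Fintype.card ι)
    (h : Nat.Coprime (Fintype.card ι) (p - 1)) :
    ∀ x : ZMod p, x ^ Fintype.card ι = 1 → x = 1 := by
  intro x hx
  have hx0 : x ≠ 0 := by
    rintro rfl
    rw [zero_pow (by omega)] at hx
    exact zero_ne_one hx
  have h1 := ZMod.pow_card_sub_one_eq_one hx0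
  have h2 := pow_gcd_eq_one.2 ⟨hx, h1⟩
  rwa [Nat.Coprime.gcd_eq_one h, pow_one] at h2

theorem q1 : S_Q1 := by
  intro ι _ _ p _ hcard hcop L hL
  have hF := fermat_hyp hcard hcop
  set L' : Subgroup (Matrix (ι ⊕ Fin 2) (ι ⊕ Fin 2) (ZMod p))ˣ := L.map (QG ι (ZMod p)).subtype
    with hL'
  have hLQ : L' ≤ QG ι (ZMod p) := by
    rintro _ ⟨g, -, rfl⟩
    exact g.2
  have hmem : ∀ g : QG ι (ZMod p), g ∈ L ↔ g.1 ∈ L' := by
    intro g
    constructor
    · intro h; exact ⟨g, h, rfl⟩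
    · rintro ⟨g', h, hg⟩
      have : g' = g := Subtype.ext hg
      rwa [← this]
  have hn : ∀ q ∈ QG ι (ZMod p), ∀ g ∈ L', q * g * q⁻¹ ∈ L' := by
    rintro q hq _ ⟨g, hg, rfl⟩
    refine ⟨⟨q, hq⟩ * g * ⟨q, hq⟩⁻¹, hL.conj_mem g hg _, ?_⟩
    rw [map_mul, map_mul, map_inv]
    rfl
  by_cases hall : ∀ g ∈ L', ∀ u u' : ι, g.val (Sum.inl u) (Sum.inl u') = if u = u' then 1 else 0
  · right
    have hne : Nonempty ι := by
      rw [← Fintype.card_pos_iff]; omega
    obtain ⟨u0⟩ := hne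
    refine ⟨AddSubgroup.toZModSubmodule p (rows L' u0), fun g => ?_⟩
    rw [hmem]
    constructor
    · intro hg
      refine ⟨hall _ hg, fun u => ?_⟩
      obtain ⟨x, hxu, -⟩ := exists_third hcard u u
      have h0 : (Pi.single (Sum.inl u) 1 : ι ⊕ Fin 2 → ZMod p) (Sum.inl x) = 0 := by
        simp [hxu]
      have h1 := cm_r hn hg (tv_mem x (Pi.single (Sum.inl u) 1 : ι ⊕ Fin 2 → ZMod p) h0)
      rw [comm5 g.2 (hall _ hg) x u h0] at h1
      show rw2 g.1.val u ∈ AddSubgroup.toZModSubmodule p (rows L' u0)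
      rw [AddSubgroup.mem_toZModSubmodule, mem_rows]
      exact move hn _ h1
    · rintro ⟨h1, h2⟩
      obtain ⟨h, hhL, hh⟩ := prod_rows hn u0 (rw2 g.1.val) (fun x => by
        have := h2 x
        rwa [AddSubgroup.mem_toZModSubmodule] at this) Finset.univ
      rw [← form_of g.2 h1] at hh
      have : h = g.1 := Units.ext hh
      rwa [← this]
  · left
    push Not at hall
    obtain ⟨g, hg, u, u', hne⟩ := hall
    obtain ⟨u, b, ξ, hξ, hbu, hb, h⟩ := get_row hcard hF hLQ hn hg (fun h => hne (h u u'))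
    have h1 := get_all hcard hn hξ hbu hb h
    rw [Subgroup.eq_top_iff']
    intro x
    rw [hmem]
    exact h1 x.2

theorem q2 : S_Q2 := by
  intro ι _ _ p _ hcard hcop L hL g hg
  have hF := fermat_hyp hcard hcop
  rcases q1 ι p hcard hcop L hL with h | ⟨ℓ, hℓ⟩
  · rw [h]; trivial
  have hne : Nonempty ι := by
    rw [← Fintype.card_pos_iff]; omega
  -- the upper left block commutes with the elementary matrices
  have key : ∀ u v : ι, ∀ h0 : (Pi.single (Sum.inl v) 1 : ι ⊕ Fin 2 → ZMod p) (Sum.inl u) = 0,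
      ∀ a b : ι, (g.1.val * (tv u (Pi.single (Sum.inl v) 1) h0).val) (Sum.inl a) (Sum.inl b) =
        ((tv u (Pi.single (Sum.inl v) 1) h0).val * g.1.val) (Sum.inl a) (Sum.inl b) := by
    intro u v h0 a b
    set q : QG ι (ZMod p) := ⟨tv u (Pi.single (Sum.inl v) 1) h0, tv_mem _ _ _⟩ with hq
    have h1 := hg q
    have h2 := (hℓ _).1 h1
    set x : QG ι (ZMod p) := g * q * g⁻¹ * q⁻¹ with hx
    have h3 : g * q = x * (q * g) := by rw [hx]; group
    have h4 : g.1.val * q.1.val = x.1.val * (q.1.val * g.1.val) := by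
      have h5 := congrArg (fun z : QG ι (ZMod p) => z.1.val) h3
      simpa using h5
    have h6 : q.1.val = (tv u (Pi.single (Sum.inl v) 1) h0).val := rfl
    rw [← h6, h4, Matrix.mul_apply, Fintype.sum_sum_type]
    have h7 : ∀ c : Fin 2, x.1.val (Sum.inl a) (Sum.inr c) *
        (q.1.val * g.1.val) (Sum.inr c) (Sum.inl b) = 0 := by
      intro c
      have h8 := QG_bot (mul_mem q.2 g.2) c (Sum.inl b)
      rw [Units.val_mul, Matrix.one_apply_ne (by simp)] at h8
      rw [h8, mul_zero]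
    rw [Finset.sum_eq_zero (fun c _ => h7 c), add_zero, Finset.sum_eq_single a]
    · rw [h2.1, if_pos rfl, one_mul]
    · intro c _ hc
      rw [h2.1, if_neg (Ne.symm hc), zero_mul]
    · intro h; exact absurd (Finset.mem_univ _) h
  have key2 : ∀ u v : ι, v ≠ u → ∀ a b : ι,
      g.1.val (Sum.inl a) (Sum.inl u) * (if b = v then 1 else 0) =
        (if a = u then 1 else 0) * g.1.val (Sum.inl v) (Sum.inl b) := by
    intro u v hvu a b
    have h0 : (Pi.single (Sum.inl v) 1 : ι ⊕ Fin 2 → ZMod p) (Sum.inl u) = 0 := by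
      simp [Ne.symm hvu]
    have h1 := key u v h0 a b
    rw [tv_val, mul_add, mul_one, add_mul, one_mul, mul_vecMulVec, vecMulVec_mul,
      Matrix.add_apply, Matrix.add_apply, vecMulVec_apply, vecMulVec_apply, mulVec_ee, ee_apply,
      single_one_vecMul] at h1
    have h2 := add_left_cancel h1
    have h3 : (Pi.single (Sum.inl v) 1 : ι ⊕ Fin 2 → ZMod p) (Sum.inl b) =
        if b = v then 1 else 0 := by
      rw [Pi.single_apply]; simp
    rw [h3] at h2
    rw [h2]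
    simp [Matrix.row]
  have hsc : ∀ u u' : ι, g.1.val (Sum.inl u) (Sum.inl u') = if u = u' then 1 else 0 := by
    obtain ⟨u0⟩ := hne
    refine scalar_one hF g.2 (g.1.val (Sum.inl u0) (Sum.inl u0)) ?_
    intro u u'
    by_cases huu : u = u'
    · subst huu
      rw [if_pos rfl]
      by_cases h : u = u0
      · rw [h]
      · have h1 := key2 u0 u h u0 u
        rw [if_pos rfl, if_pos rfl, mul_one, one_mul] at h1
        exact h1.symm
    · rw [if_neg huu]
      have h1 := key2 u' u huu u u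
      rw [if_pos rfl, mul_one, if_neg huu, zero_mul] at h1
      exact h1
  rw [hℓ]
  refine ⟨hsc, fun u => ?_⟩
  obtain ⟨x, hxu, -⟩ := exists_third hcard u u
  have h0 : (Pi.single (Sum.inl u) 1 : ι ⊕ Fin 2 → ZMod p) (Sum.inl x) = 0 := by
    simp [hxu]
  have h1 := comm5 g.2 hsc x u h0
  set q : QG ι (ZMod p) := ⟨tv x (Pi.single (Sum.inl u) 1) h0, tv_mem _ _ _⟩ with hq
  have h2 := L.inv_mem (hg q)
  have h3 := (hℓ _).1 h2
  have h4 : ((g * q * g⁻¹ * q⁻¹)⁻¹ : QG ι (ZMod p)).1 = tv x (emb (rw2 g.1.val u)) (emb_inl _ _) := by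
    rw [← h1]
    have h5 : (g * q * g⁻¹ * q⁻¹)⁻¹ = q * g * q⁻¹ * g⁻¹ := by group
    rw [h5]
    rfl
  rw [h4] at h3
  have h6 := h3.2 x
  have h7 : (fun c : Fin 2 => (tv x (emb (rw2 g.1.val u)) (emb_inl _ _)).val (Sum.inl x)
      (Sum.inr c)) = fun c : Fin 2 => g.1.val (Sum.inl u) (Sum.inr c) := by
    funext c
    rw [tv_val, Matrix.add_apply, Matrix.one_apply_ne (by simp), zero_add, vecMulVec_apply,
      ee_apply, if_pos rfl, one_mul]
    rfl
  rwa [h7] at h6

end Pool.Agent.Q177.CG
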