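import Pool.Agent.Q22.CG.Stm

/-!
# Normal subgroups of `QG`, part 1: rank one computations
-/

namespace Pool.Agent.Q177.CG

open Pool.Agent.Q22.CG Matrix

section

variable {ι : Type} [Fintype ι] [DecidableEq ι] {F : Type} [Field F]

/-- basis vector -/
def ee (u : ι) : ι ⊕ Fin 2 → F := Pi.single (Sum.inl u) 1

theorem dot_ee (ξ : ι ⊕ Fin 2 → F) (u : ι) : ξ ⬝ᵥ ee u = ξ (Sum.inl u) := by
  rw [ee, dotProduct_single_one]

theorem rk_mul (a b : ι ⊕ Fin 2 → F) (ξ η : ι ⊕ Fin 2 → F) :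
    vecMulVec a ξ * vecMulVec b η = (ξ ⬝ᵥ b) • vecMulVec a η := by
  rw [vecMulVec_mul_vecMulVec]
  ext i j
  simp only [vecMulVec_apply, Matrix.smul_apply, Pi.smul_apply, smul_eq_mul,
    MulOpposite.smul_eq_mul_unop, MulOpposite.unop_op]
  ring

/-- the unit `1 + e_u ⊗ η` -/
def tv (u : ι) (η : ι ⊕ Fin 2 → F) (h : η (Sum.inl u) = 0) :
    (Matrix (ι ⊕ Fin 2) (ι ⊕ Fin 2) F)ˣ where
  val := 1 + vecMulVec (ee u) η
  inv := 1 - vecMulVec (ee u) η
  val_inv := by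
    simp only [mul_sub, add_mul, mul_one, one_mul, rk_mul, dot_ee, h, zero_smul]
    abel
  inv_val := by
    simp only [mul_add, sub_mul, mul_one, one_mul, rk_mul, dot_ee, h, zero_smul]
    abel

theorem tv_val (u : ι) (η : ι ⊕ Fin 2 → F) (h : η (Sum.inl u) = 0) :
    (tv u η h).val = 1 + vecMulVec (ee u) η := rfl

theorem tv_inv_val (u : ι) (η : ι ⊕ Fin 2 → F) (h : η (Sum.inl u) = 0) :
    (tv u η h)⁻¹.val = 1 - vecMulVec (ee u) η := rfl

theorem tv_mul (u : ι) (η η' : ι ⊕ Fin 2 → F) (h : η (Sum.inl u) = 0)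
    (h' : η' (Sum.inl u) = 0) :
    tv u η h * tv u η' h' = tv u (η + η') (by simp [h, h']) := by
  apply Units.ext
  rw [Units.val_mul, tv_val, tv_val, tv_val]
  simp only [mul_add, add_mul, mul_one, one_mul, rk_mul, dot_ee, h, zero_smul, vecMulVec_add]
  abel

theorem tv_comm (u : ι) (η η' : ι ⊕ Fin 2 → F) (h : η (Sum.inl u) = 0)
    (h' : η' (Sum.inl u) = 0) : tv u η h * tv u η' h' = tv u η' h' * tv u η h := by
  rw [tv_mul, tv_mul]
  apply Units.ext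
  rw [tv_val, tv_val, add_comm η η']

theorem tv_inv (u : ι) (η : ι ⊕ Fin 2 → F) (h : η (Sum.inl u) = 0) :
    (tv u η h)⁻¹ = tv u (-η) (by simp [h]) := by
  apply Units.ext
  rw [tv_inv_val, tv_val]
  have : vecMulVec (ee u) (-η) = - vecMulVec (ee u) η := by
    ext i j; simp [vecMulVec_apply]
  rw [this, sub_eq_add_neg]

theorem tv_congr (u : ι) {η η' : ι ⊕ Fin 2 → F} (h : η (Sum.inl u) = 0) (e : η = η') :
    tv u η h = tv u η' (by rw [← e]; exact h) := by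
  subst e; rfl

theorem tv_zero (u : ι) : tv u (0 : ι ⊕ Fin 2 → F) rfl = 1 := by
  apply Units.ext
  rw [tv_val]
  simp

theorem single_rk (u : ι) (w : ι ⊕ Fin 2) (c : F) :
    Matrix.transvection (Sum.inl u) w c =
      1 + vecMulVec (ee u) (Pi.single w c : ι ⊕ Fin 2 → F) := by
  rw [Matrix.transvection]
  congr 1
  ext i j
  rw [vecMulVec_apply, Matrix.single_apply, ee]
  by_cases h1 : i = Sum.inl u
  · subst h1
    by_cases h2 : j = w
    · subst h2; simp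
    · simp [h2, Ne.symm h2]
  · simp [h1, Ne.symm h1]

theorem tv_single_mem (u : ι) (w : ι ⊕ Fin 2) (c : F) (hw : Sum.inl u ≠ w) :
    tv u (Pi.single w c) (by simp [hw]) ∈ QG ι F :=
  Subgroup.subset_closure ⟨u, w, c, hw, by rw [tv_val, single_rk]⟩

theorem tv_mem_of (S : Subgroup (Matrix (ι ⊕ Fin 2) (ι ⊕ Fin 2) F)ˣ) (u : ι)
    (h : ∀ (w : ι ⊕ Fin 2) (c : F) (hw : Sum.inl u ≠ w), tv u (Pi.single w c) (by simp [hw]) ∈ S)
    (η : ι ⊕ Fin 2 → F) (hη : η (Sum.inl u) = 0) : tv u η hη ∈ S := by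
  have key : ∀ s : Finset (ι ⊕ Fin 2), ∀ h0 : (∑ w ∈ s, Pi.single w (η w) : ι ⊕ Fin 2 → F)
      (Sum.inl u) = 0, tv u (∑ w ∈ s, Pi.single w (η w)) h0 ∈ S := by
    intro s
    induction s using Finset.induction_on with
    | empty =>
      intro h0
      have : tv u (∑ w ∈ (∅ : Finset (ι ⊕ Fin 2)), Pi.single w (η w) : ι ⊕ Fin 2 → F) h0 = 1 := by
        rw [tv_congr u h0 Finset.sum_empty]
        exact tv_zero u
      rw [this]
      exact one_mem _
    | insert a s ha ih =>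
      intro h0
      have hs : ∀ s : Finset (ι ⊕ Fin 2), (∑ w ∈ s, Pi.single w (η w) : ι ⊕ Fin 2 → F)
          (Sum.inl u) = 0 := by
        intro s
        rw [Finset.sum_apply]
        refine Finset.sum_eq_zero fun w _ => ?_
        by_cases hw : w = Sum.inl u
        · subst hw; simpa using hη
        · simp [Ne.symm hw]
      have ha0 : (Pi.single a (η a) : ι ⊕ Fin 2 → F) (Sum.inl u) = 0 := by
        by_cases hw : a = Sum.inl u
        · subst hw; simpa using hη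
        · simp [Ne.symm hw]
      rw [tv_congr u h0 (Finset.sum_insert ha)]
      rw [← tv_mul u _ _ ha0 (hs s)]
      refine mul_mem ?_ (ih (hs s))
      by_cases hw : Sum.inl u = a
      · have h1 : (Pi.single a (η a) : ι ⊕ Fin 2 → F) = 0 := by
          rw [← hw, hη, Pi.single_zero]
        rw [tv_congr u ha0 h1]
        rw [tv_zero u]
        exact one_mem _
      · exact h a (η a) hw
  have h1 : (∑ w, Pi.single w (η w) : ι ⊕ Fin 2 → F) = η := Finset.univ_sum_single η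
  have h2 := key Finset.univ (by rw [h1]; exact hη)
  rwa [tv_congr u _ h1] at h2

theorem tv_mem (u : ι) (η : ι ⊕ Fin 2 → F) (hη : η (Sum.inl u) = 0) : tv u η hη ∈ QG ι F :=
  tv_mem_of (QG ι F) u (fun w c hw => tv_single_mem u w c hw) η hη

/-- `[tv u ξ, tv b ζ] = tv u (ξ_b ζ)` -/
theorem comm3 (u b : ι) (ξ ζ : ι ⊕ Fin 2 → F) (h1 : ξ (Sum.inl u) = 0) (h2 : ζ (Sum.inl b) = 0)
    (h3 : ζ (Sum.inl u) = 0) :
    tv u ξ h1 * tv b ζ h2 * (tv u ξ h1)⁻¹ * (tv b ζ h2)⁻¹ =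
      tv u (ξ (Sum.inl b) • ζ) (by simp [h3]) := by
  apply Units.ext
  rw [Units.val_mul, Units.val_mul, Units.val_mul, tv_val, tv_val, tv_val, tv_inv_val, tv_inv_val]
  simp only [mul_add, add_mul, mul_sub, sub_mul, mul_one, one_mul, rk_mul, dot_ee, h1, h2, h3,
    zero_smul, smul_mul_assoc, mul_smul_comm, smul_zero, vecMulVec_smul, add_zero, sub_zero]
  abel

/-- the second commutator formula -/
theorem comm2 (T : (Matrix (ι ⊕ Fin 2) (ι ⊕ Fin 2) F)ˣ) (i : ι) (a η ζ : ι ⊕ Fin 2 → F)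
    (hT : T.val = 1 + vecMulVec a η) (hT' : T⁻¹.val = 1 - vecMulVec a η)
    (h1 : ζ (Sum.inl i) = 0) (h2 : η (Sum.inl i) = 0) (h3 : η ⬝ᵥ a = 0) :
    tv i ζ h1 * T * (tv i ζ h1)⁻¹ * T⁻¹ = tv i ((ζ ⬝ᵥ a) • η) (by simp [h2]) := by
  apply Units.ext
  rw [Units.val_mul, Units.val_mul, Units.val_mul, tv_val, tv_val, tv_inv_val, hT, hT']
  simp only [mul_add, add_mul, mul_sub, sub_mul, mul_one, one_mul, rk_mul, dot_ee, h1, h2, h3,
    zero_smul, smul_mul_assoc, mul_smul_comm, smul_zero, vecMulVec_smul, add_zero, sub_zero]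
  abel

/-- the first commutator formula -/
theorem comm1 (g : (Matrix (ι ⊕ Fin 2) (ι ⊕ Fin 2) F)ˣ) (u : ι) (w : ι ⊕ Fin 2)
    (hw : (Pi.single w 1 : ι ⊕ Fin 2 → F) (Sum.inl u) = 0) (η : ι ⊕ Fin 2 → F)
    (h1 : η (Sum.inl u) = 0) (h2 : η ⬝ᵥ (g.val *ᵥ ee u) = 0) :
    ∀ k s A : (Matrix (ι ⊕ Fin 2) (ι ⊕ Fin 2) F)ˣ,
      A = g * tv u (Pi.single w 1) hw * g⁻¹ → k = A * (tv u (Pi.single w 1) hw)⁻¹ →
      s = tv u η h1 →
      (k * s * k⁻¹ * s⁻¹).val =
        1 + (g⁻¹.val w (Sum.inl u)) • vecMulVec (g.val *ᵥ ee u) η ∧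
      (k * s * k⁻¹ * s⁻¹)⁻¹.val =
        1 - (g⁻¹.val w (Sum.inl u)) • vecMulVec (g.val *ᵥ ee u) η := by
  intro k s A hA hk hs
  have hcom : k * s * k⁻¹ * s⁻¹ = A * s * A⁻¹ * s⁻¹ := by
    have h3 : (tv u (Pi.single w 1) hw)⁻¹ * s = s * (tv u (Pi.single w 1) hw)⁻¹ := by
      rw [hs, tv_inv, tv_comm]
    rw [hk, _root_.mul_inv_rev, inv_inv]
    calc A * (tv u (Pi.single w 1) hw)⁻¹ * s * ((tv u (Pi.single w 1) hw) * A⁻¹) * s⁻¹
        = A * ((tv u (Pi.single w 1) hw)⁻¹ * s) * ((tv u (Pi.single w 1) hw) * A⁻¹) * s⁻¹ := by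
          rw [mul_assoc A]
      _ = A * (s * (tv u (Pi.single w 1) hw)⁻¹) * ((tv u (Pi.single w 1) hw) * A⁻¹) * s⁻¹ := by
          rw [h3]
      _ = A * s * A⁻¹ * s⁻¹ := by group
  set a := g.val *ᵥ ee u with ha
  set ξ : ι ⊕ Fin 2 → F := g⁻¹.val w with hξ
  have hgg : g.val * g⁻¹.val = 1 := by rw [← Units.val_mul, mul_inv_cancel, Units.val_one]
  have hgg' : g⁻¹.val * g.val = 1 := by rw [← Units.val_mul, inv_mul_cancel, Units.val_one]
  have hrk : g.val * vecMulVec (ee u) (Pi.single w 1 : ι ⊕ Fin 2 → F) * g⁻¹.val =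
      vecMulVec a ξ := by
    rw [mul_vecMulVec, vecMulVec_mul, single_one_vecMul]
    rfl
  have hAv : A.val = 1 + vecMulVec a ξ := by
    rw [hA, Units.val_mul, Units.val_mul, tv_val, mul_add, mul_one, add_mul, hgg, hrk]
  have hAi : A⁻¹.val = 1 - vecMulVec a ξ := by
    rw [hA, _root_.mul_inv_rev, _root_.mul_inv_rev, inv_inv, ← mul_assoc, Units.val_mul, Units.val_mul,
      tv_inv_val, mul_sub, mul_one, sub_mul, hgg, hrk]
  have hξa : ξ ⬝ᵥ a = 0 := by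
    have h3 : ξ ⬝ᵥ a = ((g⁻¹.val * g.val) *ᵥ (ee u)) w := by
      rw [← mulVec_mulVec]
      rfl
    rw [h3, hgg', one_mulVec, ee, Pi.single_apply, if_neg]
    intro h4
    rw [h4] at hw
    simp at hw
  have hξu : ξ ⬝ᵥ ee u = g⁻¹.val w (Sum.inl u) := dot_ee _ _
  have hinv : (A * s * A⁻¹ * s⁻¹)⁻¹ = s * A * s⁻¹ * A⁻¹ := by group
  rw [hcom, hinv]
  constructor
  · rw [Units.val_mul, Units.val_mul, Units.val_mul, hAv, hAi, hs, tv_val, tv_inv_val]
    simp only [mul_add, add_mul, mul_sub, sub_mul, mul_one, one_mul, rk_mul, hξa, hξu, h2,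
      zero_smul, smul_mul_assoc, mul_smul_comm, smul_zero, add_zero, sub_zero, dot_ee, h1]
    abel
  · rw [Units.val_mul, Units.val_mul, Units.val_mul, hAv, hAi, hs, tv_val, tv_inv_val]
    simp only [mul_add, add_mul, mul_sub, sub_mul, mul_one, one_mul, rk_mul, hξa, hξu, h2,
      zero_smul, smul_mul_assoc, mul_smul_comm, smul_zero, add_zero, sub_zero, dot_ee, h1]
    abel

end

end Pool.Agent.Q177.CG
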