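import Pool.Agent.Q177.CG.Q12a

/-!
# Normal subgroups of `QG`, part 2
-/

namespace Pool.Agent.Q177.CG

open Pool.Agent.Q22.CG Matrix

section

variable {ι : Type} [Fintype ι] [DecidableEq ι] {F : Type} [Field F]

theorem QG_bot {g : (Matrix (ι ⊕ Fin 2) (ι ⊕ Fin 2) F)ˣ} (hg : g ∈ QG ι F) :
    ∀ (c : Fin 2) (j : ι ⊕ Fin 2), g.val (Sum.inr c) j =
      (1 : Matrix (ι ⊕ Fin 2) (ι ⊕ Fin 2) F) (Sum.inr c) j := by
  have key : ∀ (A B : Matrix (ι ⊕ Fin 2) (ι ⊕ Fin 2) F),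
      (∀ (c : Fin 2) (j : ι ⊕ Fin 2), A (Sum.inr c) j =
        (1 : Matrix (ι ⊕ Fin 2) (ι ⊕ Fin 2) F) (Sum.inr c) j) →
      ∀ (c : Fin 2) (j : ι ⊕ Fin 2), (A * B) (Sum.inr c) j = B (Sum.inr c) j := by
    intro A B hA c j
    rw [Matrix.mul_apply, Finset.sum_eq_single (Sum.inr c)]
    · rw [hA, Matrix.one_apply_eq, one_mul]
    · intro b _ hb
      rw [hA, Matrix.one_apply_ne (Ne.symm hb), zero_mul]
    · intro h; exact absurd (Finset.mem_univ _) h
  induction hg using Subgroup.closure_induction with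
  | mem x hx =>
    obtain ⟨u, w, c, hw, hx⟩ := hx
    intro c' j
    rw [hx, Matrix.transvection, Matrix.add_apply, Matrix.single_apply_of_row_ne (by simp),
      add_zero]
  | one => intro c j; rfl
  | mul x y _ _ hx hy =>
    intro c j
    rw [Units.val_mul, key _ _ hx, hy]
  | inv x _ hx =>
    intro c j
    rw [← key _ x⁻¹.val hx c j, ← Units.val_mul, mul_inv_cancel, Units.val_one]

theorem QG_det {g : (Matrix (ι ⊕ Fin 2) (ι ⊕ Fin 2) F)ˣ} (hg : g ∈ QG ι F) :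
    g.val.det = 1 := by
  induction hg using Subgroup.closure_induction with
  | mem x hx =>
    obtain ⟨u, w, c, hw, hx⟩ := hx
    rw [hx, Matrix.det_transvection_of_ne _ _ hw]
  | one => simp
  | mul x y _ _ hx hy => rw [Units.val_mul, Matrix.det_mul, hx, hy, one_mul]
  | inv x _ hx =>
    have h1 : (x.val * x⁻¹.val).det = 1 := by
      rw [← Units.val_mul, mul_inv_cancel, Units.val_one, Matrix.det_one]
    rw [Matrix.det_mul, hx, one_mul] at h1
    exact h1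

theorem ee_apply (u : ι) (j : ι ⊕ Fin 2) : ee (F := F) u j = if j = Sum.inl u then 1 else 0 := by
  rw [ee, Pi.single_apply]

theorem mulVec_ee (A : Matrix (ι ⊕ Fin 2) (ι ⊕ Fin 2) F) (u : ι) (j : ι ⊕ Fin 2) :
    (A *ᵥ ee u) j = A j (Sum.inl u) := by
  rw [ee, Matrix.mulVec_single_one]
  rfl

/-- an element with scalar upper left block has upper left block one -/
theorem scalar_one (hF : ∀ x : F, x ^ Fintype.card ι = 1 → x = 1)
    {g : (Matrix (ι ⊕ Fin 2) (ι ⊕ Fin 2) F)ˣ} (hg : g ∈ QG ι F) (lam : F)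
    (h : ∀ u u' : ι, g.val (Sum.inl u) (Sum.inl u') = if u = u' then lam else 0) :
    ∀ u u' : ι, g.val (Sum.inl u) (Sum.inl u') = if u = u' then 1 else 0 := by
  have h1 : g.val = Matrix.fromBlocks (lam • (1 : Matrix ι ι F)) g.val.toBlocks₁₂ 0 1 := by
    ext i j
    rcases i with i | i <;> rcases j with j | j
    · rw [h, Matrix.fromBlocks_apply₁₁, Matrix.smul_apply, Matrix.one_apply]
      split_ifs <;> simp
    · rfl
    · rw [QG_bot hg, Matrix.fromBlocks_apply₂₁]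
      simp
    · rw [QG_bot hg, Matrix.fromBlocks_apply₂₂]
      simp [Matrix.one_apply]
  have h2 := QG_det hg
  rw [h1, Matrix.det_fromBlocks_zero₂₁, Matrix.det_smul, Matrix.det_one, Matrix.det_one, mul_one,
    mul_one] at h2
  have h3 := hF lam h2
  intro u u'
  rw [h, h3]

variable {L : Subgroup (Matrix (ι ⊕ Fin 2) (ι ⊕ Fin 2) F)ˣ}

theorem cm_l (hn : ∀ q ∈ QG ι F, ∀ g ∈ L, q * g * q⁻¹ ∈ L)
    {g q : (Matrix (ι ⊕ Fin 2) (ι ⊕ Fin 2) F)ˣ} (hg : g ∈ L) (hq : q ∈ QG ι F) :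
    g * q * g⁻¹ * q⁻¹ ∈ L := by
  have h1 := L.mul_mem hg (hn q hq g⁻¹ (L.inv_mem hg))
  have h2 : g * (q * g⁻¹ * q⁻¹) = g * q * g⁻¹ * q⁻¹ := by group
  rwa [h2] at h1

theorem cm_r (hn : ∀ q ∈ QG ι F, ∀ g ∈ L, q * g * q⁻¹ ∈ L)
    {g q : (Matrix (ι ⊕ Fin 2) (ι ⊕ Fin 2) F)ˣ} (hg : g ∈ L) (hq : q ∈ QG ι F) :
    q * g * q⁻¹ * g⁻¹ ∈ L := L.mul_mem (hn q hq g hg) (L.inv_mem hg)

theorem exists_third (hN : 3 ≤ Fintype.card ι) (u v : ι) : ∃ y : ι, y ≠ u ∧ y ≠ v := by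
  by_contra hcon
  push Not at hcon
  have h1 : (Finset.univ : Finset ι) ⊆ {u, v} := by
    intro y _
    rw [Finset.mem_insert, Finset.mem_singleton]
    by_cases h : y = u
    · exact Or.inl h
    · exact Or.inr (hcon y h)
  have h2 := Finset.card_le_card h1
  have h3 : ({u, v} : Finset ι).card ≤ 2 := Finset.card_le_two
  rw [Finset.card_univ] at h2
  omega

/-- step (ii) -/
theorem get_row (hN : 3 ≤ Fintype.card ι) (hF : ∀ x : F, x ^ Fintype.card ι = 1 → x = 1)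
    (hL : L ≤ QG ι F) (hn : ∀ q ∈ QG ι F, ∀ g ∈ L, q * g * q⁻¹ ∈ L)
    {g : (Matrix (ι ⊕ Fin 2) (ι ⊕ Fin 2) F)ˣ} (hg : g ∈ L)
    (hne : ¬ ∀ u u' : ι, g.val (Sum.inl u) (Sum.inl u') = if u = u' then 1 else 0) :
    ∃ (u b : ι) (ξ : ι ⊕ Fin 2 → F) (hξ : ξ (Sum.inl u) = 0), b ≠ u ∧ ξ (Sum.inl b) ≠ 0 ∧
      tv u ξ hξ ∈ L := by
  have hgQ := hL hg
  have hgQ' := (QG ι F).inv_mem hgQ
  have hgg : g.val * g⁻¹.val = 1 := by rw [← Units.val_mul, mul_inv_cancel, Units.val_one]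
  have hgg' : g⁻¹.val * g.val = 1 := by rw [← Units.val_mul, inv_mul_cancel, Units.val_one]
  by_cases hA : ∃ u v : ι, v ≠ u ∧ g.val (Sum.inl v) (Sum.inl u) ≠ 0
  · obtain ⟨u, v, hvu, hv⟩ := hA
    set a := g.val *ᵥ ee u with ha
    have hav : a (Sum.inl v) ≠ 0 := by rw [ha, mulVec_ee]; exact hv
    obtain ⟨w, hwu, hw⟩ : ∃ w : ι, w ≠ u ∧ g⁻¹.val (Sum.inl w) (Sum.inl u) ≠ 0 := by
      by_contra hcon
      push Not at hcon
      have h1 : g⁻¹.val *ᵥ ee u = (g⁻¹.val (Sum.inl u) (Sum.inl u)) • ee u := by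
        funext j
        rw [mulVec_ee, Pi.smul_apply, ee_apply, smul_eq_mul]
        rcases j with j | j
        · by_cases hj : j = u
          · subst hj; simp
          · rw [hcon j hj, if_neg (by simpa using hj), mul_zero]
        · rw [QG_bot hgQ', Matrix.one_apply_ne (by simp), if_neg (by simp), mul_zero]
      have h2 : ee u = (g⁻¹.val (Sum.inl u) (Sum.inl u)) • a := by
        rw [ha, ← Matrix.mulVec_smul, ← h1, Matrix.mulVec_mulVec, hgg, Matrix.one_mulVec]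
      have h3 := congrFun h2 (Sum.inl v)
      rw [ee_apply, if_neg (by simpa using hvu), Pi.smul_apply, smul_eq_mul] at h3
      rcases mul_eq_zero.1 h3.symm with h4 | h4
      · have h5 := congrFun h2 (Sum.inl u)
        rw [h4, ee_apply, if_pos rfl, Pi.smul_apply, zero_smul] at h5
        exact one_ne_zero h5
      · exact hav h4
    obtain ⟨y, hyu, hyv⟩ := exists_third hN u v
    let η : ι ⊕ Fin 2 → F := Pi.single (Sum.inl v) (a (Sum.inl y)) -
      Pi.single (Sum.inl y) (a (Sum.inl v))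
    have hηu : η (Sum.inl u) = 0 := by
      simp [η, Ne.symm hvu, Ne.symm hyu]
    have hηy : η (Sum.inl y) = - a (Sum.inl v) := by
      simp [η, hyv]
    have hηa : η ⬝ᵥ a = 0 := by
      simp only [η, sub_dotProduct, single_dotProduct]
      ring
    have hw0 : (Pi.single (Sum.inl w) 1 : ι ⊕ Fin 2 → F) (Sum.inl u) = 0 := by
      simp [Ne.symm hwu]
    set t := tv u (Pi.single (Sum.inl w) 1 : ι ⊕ Fin 2 → F) hw0 with ht
    have htQ : t ∈ QG ι F := tv_mem _ _ _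
    set s := tv u η hηu with hs
    have hsQ : s ∈ QG ι F := tv_mem _ _ _
    set A := g * t * g⁻¹ with hAdef
    set k := A * t⁻¹ with hk
    have hkL : k ∈ L := cm_l hn hg htQ
    obtain ⟨h1, h2⟩ := comm1 g u (Sum.inl w) hw0 η hηu hηa k s A rfl rfl rfl
    set r := k * s * k⁻¹ * s⁻¹ with hr
    have hrL : r ∈ L := cm_l hn hkL hsQ
    set c := g⁻¹.val (Sum.inl w) (Sum.inl u) with hc
    have h1' : r.val = 1 + vecMulVec a (c • η) := by
      rw [h1, vecMulVec_smul]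
    have h2' : r⁻¹.val = 1 - vecMulVec a (c • η) := by
      rw [h2, vecMulVec_smul]
    have hv0 : (Pi.single (Sum.inl v) 1 : ι ⊕ Fin 2 → F) (Sum.inl u) = 0 := by
      simp [Ne.symm hvu]
    have h3 := comm2 r u a (c • η) (Pi.single (Sum.inl v) 1) h1' h2' hv0 (by simp [hηu])
      (by rw [smul_dotProduct, hηa, smul_zero])
    have h4 := cm_r hn hrL (tv_mem u (Pi.single (Sum.inl v) 1 : ι ⊕ Fin 2 → F) hv0)
    rw [h3] at h4
    refine ⟨u, y, _, _, hyu, ?_, h4⟩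
    simp only [Pi.smul_apply, hηy, smul_eq_mul, single_one_dotProduct]
    exact mul_ne_zero hav (mul_ne_zero hw (neg_ne_zero.2 hav))
  · push Not at hA
    have hdiag : ∀ u, g.val *ᵥ ee u = (g.val (Sum.inl u) (Sum.inl u)) • ee u := by
      intro u
      funext j
      rw [mulVec_ee, Pi.smul_apply, ee_apply, smul_eq_mul]
      rcases j with j | j
      · by_cases hj : j = u
        · subst hj; simp
        · rw [hA u j hj, if_neg (by simpa using hj), mul_zero]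
      · rw [QG_bot hgQ, Matrix.one_apply_ne (by simp), if_neg (by simp), mul_zero]
    have hinv : ∀ u, ee u = (g.val (Sum.inl u) (Sum.inl u)) • (g⁻¹.val *ᵥ ee u) := by
      intro u
      rw [← Matrix.mulVec_smul, ← hdiag u, Matrix.mulVec_mulVec, hgg', Matrix.one_mulVec]
    have hne0 : ∀ u, g.val (Sum.inl u) (Sum.inl u) ≠ 0 := by
      intro u h0
      have h1 := congrFun (hinv u) (Sum.inl u)
      rw [h0, ee_apply, if_pos rfl, Pi.smul_apply, zero_smul] at h1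
      exact one_ne_zero h1
    obtain ⟨u, v, huv⟩ : ∃ u v : ι, g.val (Sum.inl u) (Sum.inl u) ≠
        g.val (Sum.inl v) (Sum.inl v) := by
      by_contra hcon
      push Not at hcon
      have hne' : Nonempty ι := by
        rw [← Fintype.card_pos_iff]; omega
      obtain ⟨u0⟩ := hne'
      apply hne
      refine scalar_one hF hgQ (g.val (Sum.inl u0) (Sum.inl u0)) ?_
      intro x x'
      by_cases hx : x = x'
      · subst hx; rw [if_pos rfl]; exact hcon x u0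
      · rw [if_neg hx]; exact hA x' x hx
    have hvu : v ≠ u := by
      rintro rfl; exact huv rfl
    have hv0 : (Pi.single (Sum.inl v) 1 : ι ⊕ Fin 2 → F) (Sum.inl u) = 0 := by
      simp [Ne.symm hvu]
    set lu := g.val (Sum.inl u) (Sum.inl u) with hlu
    set ξ : ι ⊕ Fin 2 → F := g⁻¹.val (Sum.inl v) with hξ
    have hξu : ξ (Sum.inl u) = 0 := by
      have h1 := congrFun (hinv u) (Sum.inl v)
      rw [ee_apply, if_neg (by simpa using hvu), Pi.smul_apply, mulVec_ee, smul_eq_mul] at h1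
      rcases mul_eq_zero.1 h1.symm with h2 | h2
      · exact absurd h2 (hne0 u)
      · exact h2
    have hξv : g.val (Sum.inl v) (Sum.inl v) * ξ (Sum.inl v) = 1 := by
      have h1 := congrFun (hinv v) (Sum.inl v)
      rw [ee_apply, if_pos rfl, Pi.smul_apply, mulVec_ee, smul_eq_mul] at h1
      exact h1.symm
    have htQ := tv_mem u (Pi.single (Sum.inl v) 1 : ι ⊕ Fin 2 → F) hv0
    have h1 : g * tv u (Pi.single (Sum.inl v) 1 : ι ⊕ Fin 2 → F) hv0 * g⁻¹ =
        tv u (lu • ξ) (by simp [hξu]) := by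
      apply Units.ext
      rw [Units.val_mul, Units.val_mul, tv_val, tv_val, mul_add, mul_one, add_mul, hgg,
        mul_vecMulVec, vecMulVec_mul, single_one_vecMul, hdiag u]
      congr 1
      rw [vecMulVec_smul, smul_vecMulVec]
      rfl
    have h2 := cm_l hn hg htQ
    rw [h1, tv_inv, tv_mul] at h2
    refine ⟨u, v, _, _, hvu, ?_, h2⟩
    simp only [Pi.add_apply, Pi.smul_apply, smul_eq_mul, Pi.neg_apply, Pi.single_eq_same]
    intro h3
    have h4 : lu * ξ (Sum.inl v) = 1 := by linear_combination h3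
    have h5 : (lu - g.val (Sum.inl v) (Sum.inl v)) * ξ (Sum.inl v) = 0 := by
      rw [sub_mul, h4, hξv, sub_self]
    rcases mul_eq_zero.1 h5 with h6 | h6
    · exact huv (sub_eq_zero.1 h6)
    · rw [h6, mul_zero] at h4
      exact zero_ne_one h4

/-- step (iii) -/
theorem get_all (hN : 3 ≤ Fintype.card ι) (hn : ∀ q ∈ QG ι F, ∀ g ∈ L, q * g * q⁻¹ ∈ L)
    {u b : ι} {ξ : ι ⊕ Fin 2 → F} (hξ : ξ (Sum.inl u) = 0) (hbu : b ≠ u)
    (hb : ξ (Sum.inl b) ≠ 0) (h : tv u ξ hξ ∈ L) : QG ι F ≤ L := by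
  have sg : ∀ (x : ι) (w : ι ⊕ Fin 2) (d : F), Sum.inl x ≠ w →
      (Pi.single w d : ι ⊕ Fin 2 → F) (Sum.inl x) = 0 := by
    intro x w d hx
    simp [hx]
  -- general commutator
  have C3 : ∀ (x y : ι) (w : ι ⊕ Fin 2) (e d : F) (hxy : Sum.inl x ≠ (Sum.inl y : ι ⊕ Fin 2))
      (hyw : Sum.inl y ≠ w) (hxw : Sum.inl x ≠ w),
      tv x (Pi.single (Sum.inl y) e) (sg _ _ _ hxy) * tv y (Pi.single w d) (sg _ _ _ hyw) *
        (tv x (Pi.single (Sum.inl y) e) (sg _ _ _ hxy))⁻¹ *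
        (tv y (Pi.single w d) (sg _ _ _ hyw))⁻¹ = tv x (Pi.single w (e * d)) (sg _ _ _ hxw) := by
    intro x y w e d hxy hyw hxw
    rw [comm3 x y _ _ _ _ (sg _ _ _ hxw)]
    refine tv_congr x _ ?_
    rw [Pi.single_eq_same, ← Pi.single_smul, smul_eq_mul]
  -- row `u`, columns different from `b`
  have r1 : ∀ (w : ι ⊕ Fin 2) (d : F) (hw : Sum.inl u ≠ w), Sum.inl b ≠ w →
      tv u (Pi.single w d) (sg _ _ _ hw) ∈ L := by
    intro w d hw hbw
    have h1 := cm_l hn h (tv_mem b (Pi.single w ((ξ (Sum.inl b))⁻¹ * d)) (sg _ _ _ hbw))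
    rw [comm3 u b _ _ _ _ (sg _ _ _ hw)] at h1
    rwa [tv_congr (η' := Pi.single w d) u _ (by
      rw [← Pi.single_smul, smul_eq_mul, mul_inv_cancel_left₀ hb])] at h1
  have r2 : ∀ (w : ι ⊕ Fin 2) (d : F) (hw : Sum.inl u ≠ w),
      tv u (Pi.single w d) (sg _ _ _ hw) ∈ L := by
    intro w d hw
    by_cases hbw : Sum.inl b = w
    · subst hbw
      obtain ⟨y, hyu, hyb⟩ := exists_third hN u b
      have hy1 : Sum.inl u ≠ (Sum.inl y : ι ⊕ Fin 2) := by simpa using Ne.symm hyu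
      have hy2 : Sum.inl y ≠ (Sum.inl b : ι ⊕ Fin 2) := by simpa using hyb
      have h1 := r1 (Sum.inl y) 1 hy1 (by simpa using Ne.symm hyb)
      have h2 := cm_l hn h1 (tv_mem y (Pi.single (Sum.inl b) d) (sg _ _ _ hy2))
      rw [C3 u y (Sum.inl b) 1 d hy1 hy2 hw] at h2
      rwa [tv_congr u _ (by rw [one_mul])] at h2
    · exact r1 w d hw hbw
  have r3 : ∀ (x : ι) (w : ι ⊕ Fin 2) (d : F) (hw : Sum.inl x ≠ w), Sum.inl u ≠ w →
      tv x (Pi.single w d) (sg _ _ _ hw) ∈ L := by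
    intro x w d hw huw
    by_cases hxu : x = u
    · subst hxu; exact r2 w d hw
    · have hxu' : Sum.inl x ≠ (Sum.inl u : ι ⊕ Fin 2) := by simpa using hxu
      have h1 := cm_r hn (r2 w d huw) (tv_mem x (Pi.single (Sum.inl u) 1) (sg _ _ _ hxu'))
      rw [C3 x u w 1 d hxu' huw hw] at h1
      rwa [tv_congr x _ (by rw [one_mul])] at h1
  have r4 : ∀ (x : ι) (w : ι ⊕ Fin 2) (d : F) (hw : Sum.inl x ≠ w),
      tv x (Pi.single w d) (sg _ _ _ hw) ∈ L := by
    intro x w d hw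
    by_cases huw : Sum.inl u = w
    · subst huw
      obtain ⟨y, hyu, hyx⟩ := exists_third hN u x
      have hy1 : Sum.inl x ≠ (Sum.inl y : ι ⊕ Fin 2) := by simpa using Ne.symm hyx
      have hy2 : Sum.inl y ≠ (Sum.inl u : ι ⊕ Fin 2) := by simpa using hyu
      have h1 := r3 x (Sum.inl y) 1 hy1 (by simpa using Ne.symm hyu)
      have h2 := cm_l hn h1 (tv_mem y (Pi.single (Sum.inl u) d) (sg _ _ _ hy2))
      rw [C3 x y (Sum.inl u) 1 d hy1 hy2 hw] at h2
      rwa [tv_congr x _ (by rw [one_mul])] at h2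
    · exact r3 x w d hw huw
  rw [QG, Subgroup.closure_le]
  rintro g ⟨x, w, c, hw, hg⟩
  have h1 : g = tv x (Pi.single w c) (sg _ _ _ hw) := by
    apply Units.ext
    rw [hg, tv_val, single_rk]
  rw [h1]
  exact r4 x w c hw

end

end Pool.Agent.Q177.CG
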