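import Pool.Agent.Q177.CG.Rig3

/-!
# Existence of rigid sets
-/

namespace Pool.Agent.Q177.CG

open Pool.Agent.Q22.CG

section Baire

theorem countable_of_fg {G : Type} [Group G] (h : Group.FG G) : Countable G := by
  obtain ⟨S, hS, φ, hφ⟩ := Group.fg_iff_exists_freeGroup_hom_surjective.1 h
  haveI : Countable S := hS.countable
  exact hφ.countable

theorem countable_aut {X : Type} [Group X] (h : Group.FG X) : Countable (X ≃* X) := by
  haveI := countable_of_fg h
  obtain ⟨S, hS⟩ := (Group.fg_def.1 h)
  let r : (X ≃* X) → (S → X) := fun f s => f s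
  have hr : Function.Injective r := by
    intro f g hfg
    have h1 : f.toMonoidHom = g.toMonoidHom := by
      refine MonoidHom.eq_of_eqOn_dense hS ?_
      intro x hx
      exact congrFun hfg ⟨x, hx⟩
    exact MulEquiv.toMonoidHom_injective h1
  exact hr.countable

theorem clopen_of {X : Type} (S : Set (X → Bool)) (D : Finset X)
    (h : ∀ u u' : X → Bool, (∀ x ∈ D, u x = u' x) → u ∈ S → u' ∈ S) : IsClosed S := by
  let r : (X → Bool) → (D → Bool) := fun u x => u x
  have hr : Continuous r := continuous_pi fun x => continuous_apply x.1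
  have h1 : S = r ⁻¹' (r '' S) := by
    ext u
    constructor
    · intro hu
      exact ⟨u, hu, rfl⟩
    · rintro ⟨v, hv, hvu⟩
      refine h v u (fun x hx => ?_) hv
      exact congrFun hvu ⟨x, hx⟩
  rw [h1]
  exact (isClosed_discrete _).preimage hr

variable {G K : Type} [Group G] [Group K]

theorem UU_closed (α : G ≃* G) (k : K) : IsClosed (UU α k) := by
  have h1 : UU α k = (⋂ g, ⋂ y, {u : G × K → Bool | u (g, k * y) = !u (g, y)}) ∩
      (⋂ g, ⋂ y, {u : G × K → Bool | u (α g, y) = u (g, y)}) := by
    ext u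
    simp [UU]
  rw [h1]
  refine IsClosed.inter ?_ ?_
  · refine isClosed_iInter fun g => isClosed_iInter fun y => ?_
    exact isClosed_eq (continuous_apply _)
      ((continuous_of_discreteTopology (f := Bool.not)).comp (continuous_apply _))
  · refine isClosed_iInter fun g => isClosed_iInter fun y => ?_
    exact isClosed_eq (continuous_apply _) (continuous_apply _)

theorem UU_nonempty (α : G ≃* G) {k : K} (hk : k ≠ 1) (hk2 : k * k = 1) :
    (UU α k).Nonempty := by
  classical
  let st : Setoid K :=
    { r := fun y z => z = y ∨ z = k * y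
      iseqv :=
        { refl := fun y => Or.inl rfl
          symm := by
            rintro y z (h | h)
            · exact Or.inl h.symm
            · right; rw [h, ← mul_assoc, hk2, one_mul]
          trans := by
            rintro x y z (h | h) (h' | h')
            · left; rw [h', h]
            · right; rw [h', h]
            · right; rw [h', h]
            · left; rw [h', h, ← mul_assoc, hk2, one_mul] } }
  let o : K → K := fun y => (Quotient.mk st y).out
  have ho : ∀ y, y = o y ∨ y = k * o y := fun y => Quotient.mk_out y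
  have hok : ∀ y, o (k * y) = o y := by
    intro y
    have : (Quotient.mk st (k * y)) = Quotient.mk st y :=
      Quotient.sound (s := st) (show y = k * y ∨ y = k * (k * y) from
        Or.inr (by rw [← mul_assoc, hk2, one_mul]))
    show (Quotient.mk st (k * y)).out = (Quotient.mk st y).out
    rw [this]
  have hne : ∀ y, k * y ≠ y := by
    intro y h
    exact hk (mul_eq_right.1 h)
  refine ⟨fun x => decide (x.2 = o x.2), ?_, ?_⟩
  · intro g y
    show decide (k * y = o (k * y)) = !decide (y = o y)
    rw [hok]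
    rcases ho y with h | h
    · rw [← h]
      simp [hne y]
    · have h2 : k * y = o y := by
        conv_lhs => rw [h]
        rw [← mul_assoc, hk2, one_mul]
      have h3 : y ≠ o y := by
        intro h4
        rw [← h4] at h2
        exact hne y h2
      simp [h2, h3]
  · intro g y
    rfl

end Baire

theorem rig : S_RIG := by
  classical
  intro G K _ _ hG hK α hα hfix hsmall hNF hcen k hk hk2
  have hinf : Infinite G := by
    have h1 := hfix ⊥ (by
      intro h hh
      rw [Subgroup.mem_bot] at hh
      rw [hh, map_one])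
    rw [Subgroup.index_bot] at h1
    rcases Nat.card_eq_zero.1 h1 with h2 | h2
    · exact absurd h2 (not_isEmpty_of_nonempty G)
    · exact h2
  haveI := countable_of_fg hG
  haveI := countable_of_fg hK
  have hX : Group.FG (G × K) := by
    haveI := hG
    haveI := hK
    infer_instance
  haveI := countable_aut hX
  by_contra hcon
  push Not at hcon
  let X := G × K
  let Bad : Set ((X ≃* X) × X × Finset X × Finset (Finset X) × Finset X) :=
    {i | ¬ ∃ (q : X) (e : ℕ), ∀ x, i.1 x * i.2.1 = q * (⇑(extA K α))^[e] x}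
  let f : Bad → Set (UU α k) := fun i =>
    {u | ∀ x ∉ i.1.2.2.2.2, (u.1 (i.1.1.symm (x * i.1.2.1⁻¹)) = true ↔
      patB u.1 i.1.2.2.1 x ∈ i.1.2.2.2.1)}
  haveI : CompactSpace (UU α k) := isCompact_iff_compactSpace.1 (UU_closed α k).isCompact
  haveI : Nonempty (UU α k) := (UU_nonempty α hk hk2).to_subtype
  have hfc : ∀ i, IsClosed (f i) := by
    intro i
    have h1 : f i = Subtype.val ⁻¹' (⋂ x : {x // x ∉ i.1.2.2.2.2},
        {u : X → Bool | (u (i.1.1.symm (x.1 * i.1.2.1⁻¹)) = true ↔
          patB u i.1.2.2.1 x.1 ∈ i.1.2.2.2.1)}) := by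
      ext u
      simp only [f, Set.mem_preimage, Set.mem_iInter, Set.mem_ofPred_eq, Subtype.forall]
    rw [h1]
    refine IsClosed.preimage continuous_subtype_val (isClosed_iInter fun x => ?_)
    refine clopen_of _ (insert (i.1.1.symm (x.1 * i.1.2.1⁻¹))
      (i.1.2.2.1.image fun l => l⁻¹ * x.1)) ?_
    intro u u' huu hu
    simp only [Set.mem_ofPred_eq] at hu ⊢
    rw [← huu _ (Finset.mem_insert_self _ _), hu]
    rw [patB_congr (u := u) (u' := u') (L := i.1.2.2.1) (x := x.1) (x' := x.1)
      (fun l hl => huu _ (Finset.mem_insert_of_mem (Finset.mem_image_of_mem _ hl)))]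
  have hcov : (⋃ i, f i) = Set.univ := by
    rw [Set.eq_univ_iff_forall]
    intro u
    have h1 := hcon {x | u.1 x = true} (by
      rintro ⟨g, y⟩
      show u.1 (1 * g, k * y) = true ↔ ¬ u.1 (g, y) = true
      rw [one_mul, u.2.1]
      simp) (by
      rintro ⟨g, y⟩
      show u.1 (α g, y) = true ↔ u.1 (g, y) = true
      rw [u.2.2])
    unfold Rigid at h1
    push Not at h1
    obtain ⟨φ, c, ⟨L, E, hLE⟩, hno⟩ := h1
    rw [Set.mem_iUnion]
    refine ⟨⟨(φ, c, L, L.powerset.filter (· ∈ E), hLE.toFinset), ?_⟩, ?_⟩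
    · rintro ⟨q, e, hqe⟩
      obtain ⟨x, hx⟩ := hno q e
      exact hx (hqe x)
    · intro x hx
      have hx' : x ∈ {y | ∃ z ∈ {x : X | u.1 x = true}, y = φ z * c} ↔
          pat {x | u.1 x = true} L x ∈ E := by
        by_contra h
        exact hx (hLE.mem_toFinset.2 h)
      show u.1 (φ.symm (x * c⁻¹)) = true ↔ patB u.1 L x ∈ L.powerset.filter (· ∈ E)
      have h2 : patB u.1 L x = pat {x | u.1 x = true} L x := by
        ext l
        rw [mem_pat]
        simp [patB]
      rw [Finset.mem_filter, h2, ← hx']
      have h3 : pat {x | u.1 x = true} L x ∈ L.powerset := by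
        rw [Finset.mem_powerset]
        intro l hl
        exact ((mem_pat _ _ _ _).1 hl).1
      constructor
      · intro h4
        exact ⟨h3, φ.symm (x * c⁻¹), h4, by simp⟩
      · rintro ⟨-, z, hz, hxz⟩
        rw [hxz]
        simpa using hz
  obtain ⟨i, u0, hu0⟩ := nonempty_interior_of_iUnion_of_closed hfc hcov
  obtain ⟨O, hO, hOi⟩ := isOpen_induced_iff.1 (isOpen_interior (s := f i))
  have hu0O : u0.1 ∈ O := by
    have : u0 ∈ Subtype.val ⁻¹' O := by rw [hOi]; exact hu0
    exact this
  obtain ⟨I, v, hv, hIv⟩ := isOpen_pi_iff.1 hO u0.1 hu0O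
  apply i.2
  refine core hα hk hk2 hinf hfix hsmall hNF hcen i.1.1 i.1.2.1 i.1.2.2.1 i.1.2.2.2.2 I
    (i.1.2.2.2.1 : Set (Finset X)) u0.1 u0.2 ?_
  intro u hu huI x hx
  have h1 : u ∈ O := by
    apply hIv
    intro a ha
    rw [huI a ha]
    exact (hv a ha).2
  have h2 : (⟨u, hu⟩ : UU α k) ∈ f i := by
    have h3 : (⟨u, hu⟩ : UU α k) ∈ Subtype.val ⁻¹' O := h1
    rw [hOi] at h3
    exact interior_subset h3
  exact h2 x hx

end Pool.Agent.Q177.CG
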