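import Pool.Agent.Q22.CG.Stm

/-!
# Rigid sets, part 1: coverings by cosets and the core claim
-/

namespace Pool.Agent.Q177.CG

open Pool.Agent.Q22.CG

section Neumann

open scoped Pointwise

variable {Γ : Type*} [Group Γ]

/-- coincidence subgroup -/
def coin {Γ' : Type*} [Group Γ'] (f₁ f₂ : Γ →* Γ') (a : Γ') : Subgroup Γ where
  carrier := {h | f₁ h * a = a * f₂ h}
  one_mem' := by simp
  mul_mem' := by
    intro x y hx hy
    simp only [Set.mem_ofPred_eq] at hx hy ⊢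
    rw [map_mul, map_mul, mul_assoc, hy, ← mul_assoc, hx, mul_assoc]
  inv_mem' := by
    intro x hx
    simp only [Set.mem_ofPred_eq] at hx ⊢
    rw [map_inv, map_inv, inv_mul_eq_iff_eq_mul, ← mul_assoc, hx, mul_inv_cancel_right]

theorem mem_coin {Γ' : Type*} [Group Γ'] {f₁ f₂ : Γ →* Γ'} {a : Γ'} {h : Γ} :
    h ∈ coin f₁ f₂ a ↔ f₁ h * a = a * f₂ h := Iff.rfl

theorem coin_quot {Γ' : Type*} [Group Γ'] {f₁ f₂ : Γ →* Γ'} {a b : Γ'} {x y : Γ}
    (hx : f₁ x * a = b * f₂ x) (hy : f₁ y * a = b * f₂ y) : x⁻¹ * y ∈ coin f₁ f₂ a := by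
  rw [mem_coin, map_mul, map_mul, map_inv, map_inv, mul_assoc, hy, inv_mul_eq_iff_eq_mul,
    ← mul_assoc, ← mul_assoc, hx, mul_inv_cancel_right]

theorem coin_trans {Γ' : Type*} [Group Γ'] {f₁ f₂ : Γ →* Γ'} {a b : Γ'} {t x : Γ}
    (ht : f₁ t * a = b * f₂ t) (hx : t⁻¹ * x ∈ coin f₁ f₂ a) : f₁ x * a = b * f₂ x := by
  rw [mem_coin] at hx
  have h1 : x = t * (t⁻¹ * x) := by group
  rw [h1, map_mul, mul_assoc, hx, ← mul_assoc, ht, mul_assoc, ← map_mul]

open Classical in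
theorem neumann0 {ι : Type*} (s : Finset ι) (H : ι → Subgroup Γ) (T : ι → Set Γ)
    (hT : ∀ i ∈ s, ∀ x ∈ T i, ∀ y ∈ T i, x⁻¹ * y ∈ H i) (hcov : ∀ x, ∃ i ∈ s, x ∈ T i) :
    ∃ g : ι → Γ, (⋃ i ∈ s.filter (fun i => g i ∈ T i), (g i) • (H i : Set Γ)) = Set.univ := by
  let g : ι → Γ := fun i => if h : (T i).Nonempty then h.some else 1
  have hg : ∀ i, (T i).Nonempty → g i ∈ T i := by
    intro i h
    simp only [g, dif_pos h]
    exact h.some_mem
  refine ⟨g, ?_⟩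
  rw [Set.eq_univ_iff_forall]
  intro x
  obtain ⟨i, hi, hx⟩ := hcov x
  have h1 := hg i ⟨x, hx⟩
  rw [Set.mem_iUnion₂]
  refine ⟨i, Finset.mem_filter.2 ⟨hi, h1⟩, ?_⟩
  rw [mem_leftCoset_iff]
  exact hT i hi _ h1 _ hx

/-- B. H. Neumann's lemma with a finite exceptional set -/
theorem neumann {ι : Type*} [Infinite Γ] (s : Finset ι) (H : ι → Subgroup Γ) (T : ι → Set Γ)
    (hT : ∀ i ∈ s, ∀ x ∈ T i, ∀ y ∈ T i, x⁻¹ * y ∈ H i) (Bad : Set Γ) (hB : Bad.Finite)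
    (hcov : ∀ x, x ∉ Bad → ∃ i ∈ s, x ∈ T i) :
    (∀ x, ∃ i ∈ s, (H i).index ≠ 0 ∧ ∃ t ∈ T i, t⁻¹ * x ∈ H i) ∧
    (∀ s0 : Finset ι, (∀ i ∈ s, (H i).index ≠ 0 → i ∈ s0) →
      ∃ i ∈ s, (H i).index ≠ 0 ∧ (H i).index ≤ s0.card ∧ (T i).Nonempty) := by
  classical
  let H' : ι ⊕ Γ → Subgroup Γ := Sum.elim H (fun _ => ⊥)
  let T' : ι ⊕ Γ → Set Γ := Sum.elim T (fun b => {b})
  let s' : Finset (ι ⊕ Γ) := s.disjSum hB.toFinset
  obtain ⟨g, hg⟩ := neumann0 s' H' T' (by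
    rintro (i | b) hi x hx y hy
    · exact hT i (Finset.inl_mem_disjSum.1 hi) x hx y hy
    · have h1 : x = b := hx
      have h2 : y = b := hy
      rw [h1, h2, inv_mul_cancel]
      exact Subgroup.one_mem _) (by
    intro x
    by_cases hx : x ∈ Bad
    · exact ⟨Sum.inr x, Finset.inr_mem_disjSum.2 (hB.mem_toFinset.2 hx), rfl⟩
    · obtain ⟨i, hi, h⟩ := hcov x hx
      exact ⟨Sum.inl i, Finset.inl_mem_disjSum.2 hi, h⟩)
  have h2 := Subgroup.leftCoset_cover_filter_FiniteIndex hg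
  have hbot : ∀ b : Γ, ¬ (H' (Sum.inr b)).FiniteIndex := by
    intro b hf
    have h3 := hf.index_ne_zero
    have h4 : H' (Sum.inr b) = ⊥ := rfl
    rw [h4, Subgroup.index_bot] at h3
    exact h3 Nat.card_eq_zero_of_infinite
  constructor
  · intro x
    have h3 : x ∈ (Set.univ : Set Γ) := Set.mem_univ x
    rw [← h2, Set.mem_iUnion₂] at h3
    obtain ⟨k, hk, hx⟩ := h3
    rw [Finset.mem_filter, Finset.mem_filter] at hk
    rw [mem_leftCoset_iff] at hx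
    rcases k with i | b
    · exact ⟨i, Finset.inl_mem_disjSum.1 hk.1.1, hk.2.index_ne_zero, g (Sum.inl i), hk.1.2, hx⟩
    · exact absurd hk.2 (hbot b)
  · intro s0 hs0
    obtain ⟨k, hk, h3, h4⟩ := Subgroup.exists_index_le_card_of_leftCoset_cover h2
    rw [Finset.mem_filter, Finset.mem_filter] at hk
    rcases k with i | b
    · refine ⟨i, Finset.inl_mem_disjSum.1 hk.1.1, h3.index_ne_zero, h4.trans ?_,
        ⟨g (Sum.inl i), hk.1.2⟩⟩
      have h5 : (((s'.filter (fun i => g i ∈ T' i)).filter fun i => (H' i).FiniteIndex)) ⊆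
          s0.map Function.Embedding.inl := by
        intro k' hk'
        rw [Finset.mem_filter, Finset.mem_filter] at hk'
        rcases k' with i' | b'
        · exact Finset.mem_map.2 ⟨i', hs0 i' (Finset.inl_mem_disjSum.1 hk'.1.1)
            hk'.2.index_ne_zero, rfl⟩
        · exact absurd hk'.2 (hbot b')
      exact (Finset.card_le_card h5).trans (by rw [Finset.card_map])
    · exact absurd h3 (hbot b)

end Neumann

end Pool.Agent.Q177.CG
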