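import Pool.Agent.Q177.CG.Rig1

/-!
# Rigid sets, part 2: the core claim
-/

namespace Pool.Agent.Q177.CG

open Pool.Agent.Q22.CG

section Core

variable {G K : Type} [Group G] [Group K]

/-- `α^e` as a homomorphism -/
def itr {G : Type} [Group G] (α : G ≃* G) (e : ℕ) : G →* G where
  toFun := (⇑α)^[e]
  map_one' := iterate_map_one α e
  map_mul' := iterate_map_mul α e

theorem itr_apply {G : Type} [Group G] (α : G ≃* G) (e : ℕ) (x : G) : itr α e x = (⇑α)^[e] x := rfl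

theorem extA_iter (α : G ≃* G) (e : ℕ) (x : G × K) :
    (⇑(extA K α))^[e] x = ((⇑α)^[e] x.1, x.2) := by
  induction e generalizing x with
  | zero => rfl
  | succ n ih => rw [Function.iterate_succ_apply, Function.iterate_succ_apply, ih]; rfl

/-- the orbit relation of `α` -/
def R (α : G ≃* G) (g g' : G) : Prop := ∃ e : Fin 3, g' = (⇑α)^[e.1] g

theorem R_refl (α : G ≃* G) (g : G) : R α g g := ⟨0, rfl⟩

theorem it_lt {α : G ≃* G} (hα : ∀ x, α (α (α x)) = x) (n : ℕ) (g : G) :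
    (⇑α)^[n] g = (⇑α)^[n % 3] g := by
  induction n using Nat.strong_induction_on with
  | _ n ih =>
    by_cases h : n < 3
    · rw [Nat.mod_eq_of_lt h]
    · obtain ⟨m, rfl⟩ : ∃ m, n = m + 3 := ⟨n - 3, by omega⟩
      rw [Function.iterate_add_apply]
      have : (⇑α)^[3] g = g := hα g
      rw [this, ih m (by omega), Nat.add_mod_right]

theorem R_iff {α : G ≃* G} (hα : ∀ x, α (α (α x)) = x) (g g' : G) :
    R α g g' ↔ ∃ n : ℕ, g' = (⇑α)^[n] g := by
  constructor
  · rintro ⟨e, he⟩; exact ⟨e, he⟩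
  · rintro ⟨n, hn⟩
    exact ⟨⟨n % 3, Nat.mod_lt _ (by norm_num)⟩, by rw [hn, it_lt hα]⟩

theorem R_symm {α : G ≃* G} (hα : ∀ x, α (α (α x)) = x) {g g' : G} (h : R α g g') : R α g' g := by
  obtain ⟨e, rfl⟩ := h
  rw [R_iff hα]
  refine ⟨2 * e.1, ?_⟩
  rw [← Function.iterate_add_apply, it_lt hα]
  have : (2 * e.1 + e.1) % 3 = 0 := by omega
  rw [this]
  rfl

theorem R_trans {α : G ≃* G} (hα : ∀ x, α (α (α x)) = x) {g g' g'' : G} (h : R α g g')
    (h' : R α g' g'') : R α g g'' := by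
  obtain ⟨e, rfl⟩ := h
  obtain ⟨e', rfl⟩ := h'
  rw [R_iff hα]
  exact ⟨e'.1 + e.1, by rw [Function.iterate_add_apply]⟩

theorem R_app {α : G ≃* G} {g g' : G} (hα : ∀ x, α (α (α x)) = x) :
    R α g (α g') ↔ R α g g' := by
  have h1 : R α g' (α g') := ⟨1, rfl⟩
  exact ⟨fun h => R_trans hα h (R_symm hα h1), fun h => R_trans hα h h1⟩

theorem R_fin (α : G ≃* G) (g : G) : {g' | R α g g'}.Finite := by
  refine (Set.finite_range fun e : Fin 3 => (⇑α)^[e.1] g).subset ?_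
  rintro _ ⟨e, rfl⟩
  exact ⟨e, rfl⟩

theorem R_inv {α : G ≃* G} {β : Type} {f : G → β} (hf : ∀ g, f (α g) = f g) {g g' : G}
    (h : R α g g') : f g' = f g := by
  obtain ⟨e, rfl⟩ := h
  generalize e.1 = n
  induction n with
  | zero => rfl
  | succ n ih => rw [Function.iterate_succ_apply', hf, ih]

/-- the functions `U` with `U (k x) = ¬ U x`, `U (α x) = U x` -/
def UU (α : G ≃* G) (k : K) : Set (G × K → Bool) :=
  {u | (∀ g y, u (g, k * y) = !u (g, y)) ∧ ∀ g y, u (α g, y) = u (g, y)}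

open Classical in
/-- toggle the orbit of `(g₀, y₀)` -/
noncomputable def tog (α : G ≃* G) (k : K) (u : G × K → Bool) (g₀ : G) (y₀ : K) : G × K → Bool :=
  fun x => if R α g₀ x.1 ∧ (x.2 = y₀ ∨ x.2 = k * y₀) then !u x else u x

theorem tog_mem {α : G ≃* G} {k : K} (hα : ∀ x, α (α (α x)) = x) (hk2 : k * k = 1)
    {u : G × K → Bool} (hu : u ∈ UU α k) (g₀ : G) (y₀ : K) : tog α k u g₀ y₀ ∈ UU α k := by
  constructor
  · intro g y
    have h1 : (k * y = y₀ ∨ k * y = k * y₀) ↔ (y = y₀ ∨ y = k * y₀) := by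
      constructor
      · rintro (h | h)
        · right; rw [← h, ← mul_assoc, hk2, one_mul]
        · left; exact mul_left_cancel h
      · rintro (h | h)
        · right; rw [h]
        · left; rw [h, ← mul_assoc, hk2, one_mul]
    unfold tog
    by_cases h : R α g₀ g ∧ (y = y₀ ∨ y = k * y₀)
    · rw [if_pos (show R α g₀ (g, k * y).1 ∧ ((g, k * y).2 = y₀ ∨ (g, k * y).2 = k * y₀) from
        ⟨h.1, h1.2 h.2⟩), if_pos (show R α g₀ (g, y).1 ∧ ((g, y).2 = y₀ ∨ (g, y).2 = k * y₀) from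
        h), hu.1]
    · rw [if_neg (show ¬ (R α g₀ (g, k * y).1 ∧ ((g, k * y).2 = y₀ ∨ (g, k * y).2 = k * y₀)) from
        fun h2 => h ⟨h2.1, h1.1 h2.2⟩), if_neg (show ¬ (R α g₀ (g, y).1 ∧
        ((g, y).2 = y₀ ∨ (g, y).2 = k * y₀)) from h), hu.1]
  · intro g y
    unfold tog
    by_cases h : R α g₀ g ∧ (y = y₀ ∨ y = k * y₀)
    · rw [if_pos (show R α g₀ (α g, y).1 ∧ ((α g, y).2 = y₀ ∨ (α g, y).2 = k * y₀) from
        ⟨(R_app hα).2 h.1, h.2⟩), if_pos (show R α g₀ (g, y).1 ∧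
        ((g, y).2 = y₀ ∨ (g, y).2 = k * y₀) from h), hu.2]
    · rw [if_neg (show ¬ (R α g₀ (α g, y).1 ∧ ((α g, y).2 = y₀ ∨ (α g, y).2 = k * y₀)) from
        fun h2 => h ⟨(R_app hα).1 h2.1, h2.2⟩), if_neg (show ¬ (R α g₀ (g, y).1 ∧
        ((g, y).2 = y₀ ∨ (g, y).2 = k * y₀)) from h), hu.2]

variable {α : G ≃* G} {k : K}

open Classical in
/-- the pattern of a Boolean function -/
noncomputable def patB {X : Type} [Group X] (u : X → Bool) (L : Finset X) (x : X) : Finset X :=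
  L.filter fun l => u (l⁻¹ * x) = true

theorem patB_congr {X : Type} [Group X] {u u' : X → Bool} {L : Finset X} {x x' : X}
    (h : ∀ l ∈ L, u (l⁻¹ * x) = u' (l⁻¹ * x')) : patB u L x = patB u' L x' := by
  classical
  unfold patB
  exact Finset.filter_congr fun l hl => by rw [h l hl]

/-- step (a) and (b): outside a finite set ... -/
theorem step_ab (hα : ∀ x, α (α (α x)) = x) (hk2 : k * k = 1) (hinf : Infinite G)
    (hNF : NoFin K) (τ : G × K →* G × K) (hτ : Function.Injective τ) (c' : G × K)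
    (L F F0 : Finset (G × K)) (E : Set (Finset (G × K))) (u0 : G × K → Bool) (hu0 : u0 ∈ UU α k)
    (hC : ∀ u ∈ UU α k, (∀ x ∈ F0, u x = u0 x) → ∀ x ∉ F, (u (τ x * c') = true ↔ patB u L x ∈ E)) :
    ∀ g : G, ∃ e : Fin 3, ∃ l ∈ L, ∃ j : Fin 2, ∀ y : K,
      τ (g, y) * c' = ((⇑α)^[e.1] (l.1⁻¹ * g), k ^ j.1 * (l.2⁻¹ * y)) := by
  classical
  set Bad : Set (G × K) := (F : Set (G × K)) ∪
    {x | ∃ f ∈ F0, R α (τ x * c').1 f.1 ∧ (f.2 = (τ x * c').2 ∨ f.2 = k * (τ x * c').2)} with hBad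
  have hBfin : Bad.Finite := by
    refine F.finite_toSet.union ?_
    have h1 : ({z : G × K | ∃ f ∈ F0, R α z.1 f.1 ∧ (f.2 = z.2 ∨ f.2 = k * z.2)}).Finite := by
      have h2 : {z : G × K | ∃ f ∈ F0, R α z.1 f.1 ∧ (f.2 = z.2 ∨ f.2 = k * z.2)} ⊆
          ⋃ f ∈ F0, ({g' | R α f.1 g'} ×ˢ {f.2, k * f.2} : Set (G × K)) := by
        rintro z ⟨f, hf, h3, h4⟩
        rw [Set.mem_iUnion₂]
        refine ⟨f, hf, R_symm hα h3, ?_⟩
        rcases h4 with h4 | h4
        · left; exact h4.symm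
        · right
          rw [Set.mem_singleton_iff, h4, ← mul_assoc, hk2, one_mul]
      refine Set.Finite.subset ?_ h2
      refine Set.Finite.biUnion F0.finite_toSet fun f _ => ?_
      exact (R_fin α f.1).prod (Set.toFinite _)
    exact h1.preimage (f := fun x => τ x * c')
      (Set.injOn_of_injective fun a b hab => hτ (mul_right_cancel hab))
  -- step (a)
  have stepa : ∀ x, x ∉ Bad → ∃ l ∈ L, R α (τ x * c').1 (l⁻¹ * x).1 ∧
      ((l⁻¹ * x).2 = (τ x * c').2 ∨ (l⁻¹ * x).2 = k * (τ x * c').2) := by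
    intro x hx
    by_contra hcon
    push Not at hcon
    rw [hBad, Set.mem_union, not_or] at hx
    obtain ⟨hxF, hx0⟩ := hx
    set v := tog α k u0 (τ x * c').1 (τ x * c').2 with hv
    have hvU : v ∈ UU α k := tog_mem hα hk2 hu0 _ _
    have hv0 : ∀ z ∈ F0, v z = u0 z := by
      intro z hz
      rw [hv]
      unfold tog
      rw [if_neg]
      rintro ⟨h1, h2⟩
      exact hx0 ⟨z, hz, h1, h2⟩
    have h1 := hC v hvU hv0 x hxF
    have h2 := hC u0 hu0 (fun _ _ => rfl) x hxF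
    have h3 : patB v L x = patB u0 L x := by
      apply patB_congr
      intro l hl
      rw [hv]
      unfold tog
      rw [if_neg]
      rintro ⟨h4, h5⟩
      rcases h5 with h5 | h5
      · exact (hcon l hl h4).1 h5
      · exact (hcon l hl h4).2 h5
    rw [h3, ← h2] at h1
    have h4 : v (τ x * c') = !u0 (τ x * c') := by
      rw [hv]
      unfold tog
      rw [if_pos ⟨R_refl _ _, Or.inl rfl⟩]
    rw [h4] at h1
    cases h5 : u0 (τ x * c') <;> simp [h5] at h1
  -- step (b)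
  haveI : Infinite (G × K) := Prod.infinite_of_left
  let s : Finset (Fin 3 × (G × K) × Fin 2) := Finset.univ ×ˢ L ×ˢ Finset.univ
  let H : Fin 3 × (G × K) × Fin 2 → Subgroup (G × K) := fun i => coin τ (itr (extA K α) i.1.1) c'
  let b : Fin 3 × (G × K) × Fin 2 → G × K := fun i =>
    ((1 : G), k ^ i.2.2.1) * itr (extA K α) i.1.1 i.2.1⁻¹
  let T : Fin 3 × (G × K) × Fin 2 → Set (G × K) := fun i =>
    {x | τ x * c' = b i * itr (extA K α) i.1.1 x}
  have hbx : ∀ (i : Fin 3 × (G × K) × Fin 2) (x : G × K), b i * itr (extA K α) i.1.1 x =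
      ((⇑α)^[i.1.1] (i.2.1.1⁻¹ * x.1), k ^ i.2.2.1 * (i.2.1.2⁻¹ * x.2)) := by
    intro i x
    simp only [b]
    rw [mul_assoc, ← map_mul, itr_apply, extA_iter]
    simp
  have hN := (neumann s H T (by
    intro i _ x hx y hy
    exact coin_quot hx hy) Bad hBfin (by
    intro x hx
    obtain ⟨l, hl, h1, h2⟩ := stepa x hx
    obtain ⟨e, he⟩ := R_symm hα h1
    have h3 : ∃ j : Fin 2, (τ x * c').2 = k ^ j.1 * (l⁻¹ * x).2 := by
      rcases h2 with h2 | h2
      · exact ⟨0, by rw [h2]; simp⟩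
      · exact ⟨1, by rw [h2, ← mul_assoc]; simp [hk2]⟩
    obtain ⟨j, hj⟩ := h3
    refine ⟨(e, l, j), by simp [s, hl], ?_⟩
    show τ x * c' = b (e, l, j) * itr (extA K α) e.1 x
    rw [hbx]
    exact Prod.ext he hj)).1
  intro g
  obtain ⟨i, hi, hidx, t, ht, htx⟩ := hN (g, 1)
  have hil : i.2.1 ∈ L := by
    have := hi
    simp only [s, Finset.mem_product] at this
    exact this.2.1
  refine ⟨i.1, i.2.1, hil, i.2.2, fun y => ?_⟩
  have hK : ∀ y : K, ((1 : G), y) ∈ H i := by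
    have h1 : (H i).comap (MonoidHom.inr G K) = ⊤ := by
      apply hNF
      intro h0
      rw [Subgroup.index_comap] at h0
      have h5 := Subgroup.relIndex_eq_zero_of_le_right (le_top : (MonoidHom.inr G K).range ≤ ⊤) h0
      rw [Subgroup.relIndex_top_right] at h5
      exact hidx h5
    intro y
    have : y ∈ (H i).comap (MonoidHom.inr G K) := by rw [h1]; trivial
    exact this
  have h2 : t⁻¹ * (g, y) ∈ H i := by
    have h3 := (H i).mul_mem htx (hK y)
    have h4 : t⁻¹ * (g, 1) * (1, y) = t⁻¹ * (g, y) := by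
      rw [mul_assoc]
      simp
    rwa [h4] at h3
  have h3 := coin_trans ht h2
  rw [h3, hbx]

/-- step (c): the form of `σ⁻¹` -/
theorem step_c (hcen : Subgroup.center K = ⊥) (τ : G × K →* G × K) (c' : G × K)
    (h : ∀ g : G, ∃ (S : G) (C : K), ∀ y : K, τ (g, y) * c' = (S, C * y)) :
    ∀ g y, τ (g, y) * c' = ((τ (g, 1)).1 * c'.1, c'.2 * y) := by
  have h1 : ∀ y : K, τ (1, y) * c' = (c'.1, c'.2 * y) := by
    obtain ⟨S, C, hS⟩ := h 1
    have h2 := hS 1
    rw [mul_one] at h2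
    have h3 : τ ((1 : G), (1 : K)) = 1 := map_one τ
    rw [h3, one_mul] at h2
    intro y
    rw [hS y, h2]
  have h2 : ∀ y : K, τ (1, y) = (1, c'.2 * y * c'.2⁻¹) := by
    intro y
    have := h1 y
    rw [← eq_mul_inv_iff_mul_eq] at this
    rw [this]
    ext <;> simp
  have h3 : ∀ g : G, (τ (g, 1)).2 = 1 := by
    intro g
    have hc : (τ (g, 1)).2 ∈ Subgroup.center K := by
      rw [Subgroup.mem_center_iff]
      intro z
      have h4 : τ (g, 1) * τ (1, c'.2⁻¹ * z * c'.2) = τ (1, c'.2⁻¹ * z * c'.2) * τ (g, 1) := by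
        rw [← map_mul, ← map_mul]
        simp
      have h5 := congrArg Prod.snd h4
      rw [h2] at h5
      simp only [Prod.snd_mul] at h5
      have h6 : c'.2 * (c'.2⁻¹ * z * c'.2) * c'.2⁻¹ = z := by group
      rw [h6] at h5
      exact h5.symm
    rw [hcen, Subgroup.mem_bot] at hc
    exact hc
  intro g y
  have h4 : ((g, y) : G × K) = (g, 1) * (1, y) := by simp
  rw [h4, map_mul, mul_assoc, h1]
  refine Prod.ext rfl ?_
  show (τ (g, 1)).2 * (c'.2 * y) = c'.2 * y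
  rw [h3, one_mul]

end Core

end Pool.Agent.Q177.CG
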