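import Pool.Agent.Q177.CG.Rig2

/-!
# Rigid sets, part 3: the end of the core claim
-/

namespace Pool.Agent.Q177.CG

open Pool.Agent.Q22.CG

section Core

variable {G K : Type} [Group G] [Group K] {α : G ≃* G} {k : K}

theorem fix_index (hα : ∀ x, α (α (α x)) = x)
    (hfix : ∀ H : Subgroup G, (∀ h ∈ H, α h = h) → H.index = 0) (e : Fin 2) :
    (coin (MonoidHom.id G) (itr α (e.1 + 1)) 1).index = 0 := by
  apply hfix
  intro h hh
  rw [mem_coin, mul_one, one_mul, itr_apply] at hh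
  have h1 : h = (⇑α)^[e.1 + 1] h := hh
  have he : e.1 = 0 ∨ e.1 = 1 := by omega
  rcases he with h0 | h0
  · rw [h0] at h1
    exact h1.symm
  · rw [h0] at h1
    have h2 : h = α (α h) := h1
    have h3 := congrArg α h2
    rw [hα] at h3
    exact h3

theorem step_de (hα : ∀ x, α (α (α x)) = x) (hk : k ≠ 1) (hk2 : k * k = 1) (hinf : Infinite G)
    (hfix : ∀ H : Subgroup G, (∀ h ∈ H, α h = h) → H.index = 0)
    (hsmall : ∀ H : Subgroup G, H.index ≠ 0 → H.index ≤ 3 → H = ⊤)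
    (ψ : G →* G) (s1 : G) (c0 : K)
    (L F F0 : Finset (G × K)) (E : Set (Finset (G × K))) (u0 : G × K → Bool) (hu0 : u0 ∈ UU α k)
    (hC : ∀ u ∈ UU α k, (∀ x ∈ F0, u x = u0 x) → ∀ g y, (g, y) ∉ F →
      (u (ψ g * s1, c0 * y) = true ↔ patB u L (g, y) ∈ E))
    (hs : ∀ g : G, ∃ l ∈ L, R α (l.1⁻¹ * g) (ψ g * s1)) :
    ∃ e : Fin 3, ∀ g, ψ g * s1 = s1 * (⇑α)^[e.1] g := by
  classical
  set A : Finset G := L.image Prod.fst with hA
  have hs' : ∀ g : G, ∃ a ∈ A, R α (a⁻¹ * g) (ψ g * s1) := by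
    intro g
    obtain ⟨l, hl, h⟩ := hs g
    exact ⟨l.1, Finset.mem_image_of_mem _ hl, h⟩
  let Gen : G → Prop := fun g =>
    (∀ a ∈ A, ∀ a' ∈ A, a ≠ a' → ¬ R α (a⁻¹ * g) (a'⁻¹ * g)) ∧
    (∀ a ∈ A, ∀ f ∈ F0, ¬ R α (a⁻¹ * g) f.1) ∧ (∀ f ∈ F, f.1 ≠ g)
  -- step (d)
  have stepd : ∀ g h, Gen g → Gen h → ∀ a ∈ A, ∀ b ∈ A, R α (a⁻¹ * g) (ψ g * s1) →
      R α (b⁻¹ * h) (ψ h * s1) → a = b := by
    intro g h hg hh a ha b hb hag hbh
    by_contra hab
    have key : ∀ u1 ∈ UU α k, (∀ x ∈ F0, u1 x = u0 x) → u1 (a⁻¹ * g, c0) = u1 (b⁻¹ * g, c0) := by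
      intro u1 hu1 hu10
      let u2 : G × K → Bool := fun x =>
        if hx : ∃ a' ∈ A, R α (a'⁻¹ * h) x.1 then u1 (hx.choose⁻¹ * g, x.2) else u1 x
      have hpos : ∀ a' ∈ A, ∀ g' y, R α (a'⁻¹ * h) g' → u2 (g', y) = u1 (a'⁻¹ * g, y) := by
        intro a' ha' g' y hR
        have hx : ∃ a' ∈ A, R α (a'⁻¹ * h) ((g', y) : G × K).1 := ⟨a', ha', hR⟩
        have h1 : hx.choose = a' := by
          by_contra hne
          exact hh.1 _ hx.choose_spec.1 _ ha' hne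
            (R_trans hα hx.choose_spec.2 (R_symm hα hR))
        simp only [u2, dif_pos hx, h1]
      have hneg : ∀ g' y, (¬ ∃ a' ∈ A, R α (a'⁻¹ * h) g') → u2 (g', y) = u1 (g', y) := by
        intro g' y hx
        simp only [u2]
        rw [dif_neg hx]
      have hu2 : u2 ∈ UU α k := by
        constructor
        · intro g' y
          by_cases hx : ∃ a' ∈ A, R α (a'⁻¹ * h) g'
          · obtain ⟨a', ha', hR⟩ := hx
            rw [hpos a' ha' g' _ hR, hpos a' ha' g' _ hR, hu1.1]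
          · rw [hneg _ _ hx, hneg _ _ hx, hu1.1]
        · intro g' y
          by_cases hx : ∃ a' ∈ A, R α (a'⁻¹ * h) g'
          · obtain ⟨a', ha', hR⟩ := hx
            rw [hpos a' ha' g' _ hR, hpos a' ha' (α g') _ ((R_app hα).2 hR)]
          · rw [hneg _ _ hx, hneg _ _ (by
              rintro ⟨a', ha', hR⟩
              exact hx ⟨a', ha', (R_app hα).1 hR⟩), hu1.2]
      have hu20 : ∀ x ∈ F0, u2 x = u0 x := by
        intro x hx
        rw [← hu10 x hx]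
        exact hneg x.1 x.2 (by
          rintro ⟨a', ha', hR⟩
          exact hh.2.1 a' ha' x hx hR)
      have h1 := hC u1 hu1 hu10 g 1 (fun hF => hg.2.2 _ hF rfl)
      have h2 := hC u2 hu2 hu20 h 1 (fun hF => hh.2.2 _ hF rfl)
      have h3 : patB u2 L (h, 1) = patB u1 L (g, 1) := by
        apply patB_congr
        intro l hl
        exact hpos l.1 (Finset.mem_image_of_mem _ hl) (l.1⁻¹ * h) (l.2⁻¹ * 1) (R_refl _ _)
      rw [h3, ← h1, mul_one] at h2
      have h4 : u2 (ψ h * s1, c0) = u1 (b⁻¹ * g, c0) := hpos b hb _ _ hbh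
      have h5 : u1 (ψ g * s1, c0) = u1 (a⁻¹ * g, c0) :=
        R_inv (f := fun g => u1 (g, c0)) (fun g => hu1.2 g c0) hag
      rw [h4, h5] at h2
      exact (Bool.eq_iff_iff.2 h2).symm
    have h1 := key u0 hu0 (fun _ _ => rfl)
    have h2 := key (tog α k u0 (a⁻¹ * g) c0) (tog_mem hα hk2 hu0 _ _) (by
      intro x hx
      unfold tog
      rw [if_neg]
      rintro ⟨h3, -⟩
      exact hg.2.1 a ha x hx h3)
    have h3 : tog α k u0 (a⁻¹ * g) c0 (a⁻¹ * g, c0) = !u0 (a⁻¹ * g, c0) := by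
      unfold tog
      rw [if_pos ⟨R_refl _ _, Or.inl rfl⟩]
    have h4 : tog α k u0 (a⁻¹ * g) c0 (b⁻¹ * g, c0) = u0 (b⁻¹ * g, c0) := by
      unfold tog
      rw [if_neg]
      rintro ⟨h5, -⟩
      exact hg.1 a ha b hb hab h5
    rw [h3, h4, ← h1] at h2
    cases h5 : u0 (a⁻¹ * g, c0) <;> simp [h5] at h2
  -- choice of `a₀`
  obtain ⟨a0, ha0, hgen⟩ : ∃ a0 ∈ A, ∀ g, Gen g → R α (a0⁻¹ * g) (ψ g * s1) := by
    by_cases hex : ∃ g, Gen g
    · obtain ⟨g0, hg0⟩ := hex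
      obtain ⟨a, ha, hR⟩ := hs' g0
      refine ⟨a, ha, fun g hg => ?_⟩
      obtain ⟨b, hb, hR'⟩ := hs' g
      rwa [stepd g0 g hg0 hg a ha b hb hR hR']
    · obtain ⟨a, ha, hR⟩ := hs' 1
      exact ⟨a, ha, fun g hg => absurd ⟨g, hg⟩ hex⟩
  -- step (e)
  let s : Finset (Fin 3 ⊕ (G × G) × Fin 2) :=
    Finset.univ.disjSum ((A ×ˢ A).filter (fun q => q.1 ≠ q.2) ×ˢ Finset.univ)
  let H : Fin 3 ⊕ (G × G) × Fin 2 → Subgroup G :=
    Sum.elim (fun e => coin ψ (itr α e.1) s1)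
      (fun q => coin (MonoidHom.id G) (itr α (q.2.1 + 1)) 1)
  let T : Fin 3 ⊕ (G × G) × Fin 2 → Set G :=
    Sum.elim (fun e => {g | ψ g * s1 = itr α e.1 a0⁻¹ * itr α e.1 g})
      (fun q => {g | MonoidHom.id G g * 1 = (q.1.2 * itr α (q.2.1 + 1) q.1.1⁻¹) *
        itr α (q.2.1 + 1) g})
  set Bad : Set G := {g | ∃ a ∈ A, ∃ f ∈ F0, R α (a⁻¹ * g) f.1} ∪ {g | ∃ f ∈ F, f.1 = g} with hBad
  have hBfin : Bad.Finite := by
    refine Set.Finite.union ?_ ?_
    · have h1 : {g | ∃ a ∈ A, ∃ f ∈ F0, R α (a⁻¹ * g) f.1} ⊆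
          ⋃ a ∈ A, ⋃ f ∈ F0, (fun z => a * z) '' {z | R α f.1 z} := by
        rintro g ⟨a, ha, f, hf, hR⟩
        rw [Set.mem_iUnion₂]
        refine ⟨a, ha, ?_⟩
        rw [Set.mem_iUnion₂]
        exact ⟨f, hf, a⁻¹ * g, R_symm hα hR, by simp⟩
      refine Set.Finite.subset ?_ h1
      refine Set.Finite.biUnion A.finite_toSet fun a _ => ?_
      refine Set.Finite.biUnion F0.finite_toSet fun f _ => ?_
      exact (R_fin α f.1).image _
    · refine (F.image Prod.fst).finite_toSet.subset ?_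
      rintro g ⟨f, hf, rfl⟩
      exact Finset.mem_coe.2 (Finset.mem_image_of_mem _ hf)
  obtain ⟨i, hi, hidx, hcard, t, ht⟩ := (neumann s H T (by
    rintro (e | q) _ x hx y hy
    · exact coin_quot hx hy
    · exact coin_quot hx hy) Bad hBfin (by
    intro g hg
    by_cases hG : Gen g
    · obtain ⟨e, he⟩ := hgen g hG
      refine ⟨Sum.inl e, by simp [s], ?_⟩
      show ψ g * s1 = itr α e.1 a0⁻¹ * itr α e.1 g
      rw [he, ← map_mul, itr_apply]
    · rw [hBad, Set.mem_union, not_or] at hg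
      have h1 : ∃ a ∈ A, ∃ a' ∈ A, a ≠ a' ∧ R α (a⁻¹ * g) (a'⁻¹ * g) := by
        by_contra hcon
        push Not at hcon
        apply hG
        refine ⟨hcon, ?_, ?_⟩
        · intro a ha f hf hR
          exact hg.1 ⟨a, ha, f, hf, hR⟩
        · intro f hf hR
          exact hg.2 ⟨f, hf, hR⟩
      obtain ⟨a, ha, a', ha', hne, e, he⟩ := h1
      have he0 : e.1 ≠ 0 := by
        intro h0
        rw [h0] at he
        have : a'⁻¹ * g = a⁻¹ * g := he
        exact hne (inv_injective (mul_right_cancel this)).symm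
      have he2 : e.1 - 1 < 2 := by have := e.2; omega
      refine ⟨Sum.inr ((a, a'), ⟨e.1 - 1, he2⟩), ?_, ?_⟩
      · simp [s, ha, ha', hne]
      · show g * 1 = (a' * itr α (e.1 - 1 + 1) a⁻¹) * itr α (e.1 - 1 + 1) g
        have h2 : e.1 - 1 + 1 = e.1 := by omega
        rw [h2, mul_assoc, ← map_mul, itr_apply, ← he]
        simp)).2 (Finset.univ.map Function.Embedding.inl) (by
    rintro (e | q) _ hidx
    · simp
    · exact absurd (fix_index hα hfix q.2) hidx)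
  rcases i with e | q
  · refine ⟨e, ?_⟩
    have h1 : H (Sum.inl e) = ⊤ := hsmall _ hidx (by simpa using hcard)
    have h2 : ∀ g, ψ g * s1 = itr α e.1 a0⁻¹ * itr α e.1 g := by
      intro g
      refine coin_trans (t := t) ht ?_
      have : t⁻¹ * g ∈ H (Sum.inl e) := by rw [h1]; trivial
      exact this
    have h3 := h2 1
    rw [map_one, map_one, one_mul, mul_one] at h3
    intro g
    rw [h2 g, ← h3, itr_apply]
  · exact absurd (fix_index hα hfix q.2) hidx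

theorem core (hα : ∀ x, α (α (α x)) = x) (hk : k ≠ 1) (hk2 : k * k = 1) (hinf : Infinite G)
    (hfix : ∀ H : Subgroup G, (∀ h ∈ H, α h = h) → H.index = 0)
    (hsmall : ∀ H : Subgroup G, H.index ≠ 0 → H.index ≤ 3 → H = ⊤)
    (hNF : NoFin K) (hcen : Subgroup.center K = ⊥) (φ : G × K ≃* G × K) (c : G × K)
    (L F F0 : Finset (G × K)) (E : Set (Finset (G × K))) (u0 : G × K → Bool) (hu0 : u0 ∈ UU α k)
    (hC : ∀ u ∈ UU α k, (∀ x ∈ F0, u x = u0 x) → ∀ x ∉ F,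
      (u (φ.symm (x * c⁻¹)) = true ↔ patB u L x ∈ E)) :
    ∃ (q : G × K) (e : ℕ), ∀ x, φ x * c = q * (⇑(extA K α))^[e] x := by
  set τ : G × K →* G × K := φ.symm.toMonoidHom with hτ
  set c' : G × K := φ.symm c⁻¹ with hc'
  have hτc : ∀ x, τ x * c' = φ.symm (x * c⁻¹) := by
    intro x
    rw [map_mul]
    rfl
  have hab := step_ab hα hk2 hinf hNF τ φ.symm.injective c' L F F0 E u0 hu0 (by
    intro u hu h0 x hx
    rw [hτc]
    exact hC u hu h0 x hx)
  have hc := step_c hcen τ c' (by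
    intro g
    obtain ⟨e, l, hl, j, h⟩ := hab g
    exact ⟨_, k ^ j.1 * l.2⁻¹, fun y => by rw [h y, mul_assoc]⟩)
  set ψ : G →* G := (MonoidHom.fst G K).comp (τ.comp (MonoidHom.inl G K)) with hψ
  have hψg : ∀ g, ψ g = (τ (g, 1)).1 := fun g => rfl
  obtain ⟨e, he⟩ := step_de hα hk hk2 hinf hfix hsmall ψ c'.1 c'.2 L F F0 E u0 hu0 (by
    intro u hu h0 g y hx
    rw [← hC u hu h0 (g, y) hx, ← hτc, hc, hψg]) (by
    intro g
    obtain ⟨e, l, hl, j, h⟩ := hab g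
    refine ⟨l, hl, e, ?_⟩
    rw [hψg]
    have h1 := congrArg Prod.fst (h 1)
    rw [hc] at h1
    exact h1)
  have hfin : ∀ z : G × K, φ.symm (z * c⁻¹) = c' * (⇑(extA K α))^[e.1] z := by
    intro z
    rw [← hτc, hc z.1 z.2, extA_iter, ← hψg, he]
    rfl
  have hit3 : ∀ z : G × K, (⇑(extA K α))^[3 - e.1] ((⇑(extA K α))^[e.1] z) = z := by
    intro z
    rw [← Function.iterate_add_apply]
    have h1 : 3 - e.1 + e.1 = 3 := by have := e.2; omega
    rw [h1, extA_iter]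
    exact Prod.ext (hα z.1) rfl
  refine ⟨(⇑(extA K α))^[3 - e.1] c'⁻¹, 3 - e.1, fun x => ?_⟩
  have h1 := hfin (φ x * c)
  rw [mul_inv_cancel_right, φ.symm_apply_apply] at h1
  have h2 : (⇑(extA K α))^[e.1] (φ x * c) = c'⁻¹ * x :=
    (inv_mul_eq_iff_eq_mul.2 h1).symm
  have h3 := hit3 (φ x * c)
  rw [h2, iterate_map_mul] at h3
  exact h3.symm

end Core

end Pool.Agent.Q177.CG
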